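import Pool.Agent.Q230.IP.St2

set_option autoImplicit false

namespace Pool.Agent.Q47.IP

open Pool.Agent.Q230.IP

/-- multiply the test coordinates by `c` -/
noncomputable def scl {d : ℕ} (isT : Fin d → Prop) (c : ℝ) (f g : Fin d → ℝ) : Fin d → ℝ :=
  letI := Classical.decPred isT
  fun i => if isT i then c * g i else f i

theorem scl_T {d : ℕ} {isT : Fin d → Prop} {c : ℝ} {f g : Fin d → ℝ} {i : Fin d} (h : isT i) :
    scl isT c f g i = c * g i := by
  unfold scl; simp [h]

theorem scl_N {d : ℕ} {isT : Fin d → Prop} {c : ℝ} {f g : Fin d → ℝ} {i : Fin d} (h : ¬ isT i) :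
    scl isT c f g i = f i := by
  unfold scl; simp [h]

theorem geo : S_geo := by
  classical
  intro d isT Mn Vi h1 h2 h3 h4
  constructor
  · rintro ⟨x, ⟨hxM, hxT⟩, ε, hε, hiso⟩
    have small : ∀ Q : ℝ, 0 ≤ Q → ∃ δ : ℝ, 0 < δ ∧ δ ^ 2 * Q < ε ^ 2 := by
      intro Q hQ
      have h5 : 0 < Real.sqrt (Q + 1) := Real.sqrt_pos.2 (by linarith)
      refine ⟨ε / (Real.sqrt (Q + 1)), by positivity, ?_⟩
      rw [div_pow, Real.sq_sqrt (by linarith)]
      rw [div_mul_eq_mul_div, div_lt_iff₀ (by linarith)]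
      have : 0 < ε ^ 2 := by positivity
      nlinarith
    have hnV : ¬ Vi x := by
      intro hV
      obtain ⟨i0, hi0, hne⟩ := h4 x hV
      obtain ⟨δ, hδ, hδ2⟩ := small (∑ i, x i ^ 2) (Finset.sum_nonneg fun i _ => sq_nonneg _)
      have hy : scl isT (1 + δ) x x ∈ {f | Mn f ∧ ((∀ i, isT i → f i = 0) ∨ Vi f)} := by
        refine ⟨(h1 x _ fun i hi => (scl_N hi).symm).1 hxM, Or.inr ?_⟩
        exact h3 x _ (1 + δ) (by linarith) (fun i hi => scl_T hi) (fun i hi => scl_N hi) hV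
      have h6 := hiso _ hy (by
        refine lt_of_le_of_lt ?_ hδ2
        rw [Finset.mul_sum]
        refine Finset.sum_le_sum fun i _ => ?_
        by_cases hi : isT i
        · rw [scl_T hi]; exact le_of_eq (by ring)
        · rw [scl_N hi]; nlinarith [sq_nonneg (x i), sq_nonneg δ, mul_nonneg (sq_nonneg δ) (sq_nonneg (x i))])
      have h7 := congrFun h6 i0
      rw [scl_T hi0] at h7
      have : δ * x i0 = 0 := by linarith
      rcases mul_eq_zero.1 this with h | h
      · linarith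
      · exact hne h
    have hxT0 : ∀ i, isT i → x i = 0 := hxT.resolve_right hnV
    refine ⟨x, hxM, hxT0, ?_⟩
    rintro ⟨g, hg, hV⟩
    obtain ⟨δ, hδ, hδ2⟩ := small (∑ i, g i ^ 2) (Finset.sum_nonneg fun i _ => sq_nonneg _)
    have hVy : Vi (scl isT δ x g) :=
      h3 g _ δ hδ (fun i hi => scl_T hi) (fun i hi => by rw [scl_N hi, hg i hi]) hV
    have h6 := hiso _ ⟨(h1 x _ fun i hi => (scl_N hi).symm).1 hxM, Or.inr hVy⟩ (by
      refine lt_of_le_of_lt ?_ hδ2
      rw [Finset.mul_sum]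
      refine Finset.sum_le_sum fun i _ => ?_
      by_cases hi : isT i
      · rw [scl_T hi, hxT0 i hi]; exact le_of_eq (by ring)
      · rw [scl_N hi]; nlinarith [sq_nonneg (g i), sq_nonneg δ, mul_nonneg (sq_nonneg δ) (sq_nonneg (g i))])
    obtain ⟨i, hi, hne⟩ := h4 _ hVy
    exact hne ((congrFun h6 i).trans (hxT0 i hi))
  · rintro ⟨f, hfM, hfT, hno⟩
    have hcl : IsClosed ({f | Mn f ∧ ∀ i, isT i → f i = 0} \ {f}) :=
      (h2.subset Set.sdiff_subset).isClosed
    obtain ⟨ε, hε, hb⟩ := Metric.isOpen_iff.1 hcl.isOpen_compl f (by simp)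
    refine ⟨f, ⟨hfM, Or.inl hfT⟩, ε, hε, ?_⟩
    rintro y ⟨hyM, hyT⟩ hlt
    have hy' : scl isT 0 y y = f := by
      by_contra hne
      have hmem : scl isT 0 y y ∈ Metric.ball f ε := by
        rw [Metric.mem_ball, dist_pi_lt_iff hε]
        intro i
        by_cases hi : isT i
        · rw [scl_T hi, hfT i hi, zero_mul, dist_self]; exact hε
        · rw [scl_N hi, Real.dist_eq]
          have h5 : (y i - f i) ^ 2 < ε ^ 2 :=
            lt_of_le_of_lt (Finset.single_le_sum (f := fun i => (y i - f i) ^ 2)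
              (fun i _ => sq_nonneg _) (Finset.mem_univ i)) hlt
          exact abs_lt_of_sq_lt_sq h5 hε.le
      refine hb hmem ⟨⟨(h1 y _ fun i hi => (scl_N hi).symm).1 hyM, fun i hi => ?_⟩, hne⟩
      rw [scl_T hi, zero_mul]
    have hoff : ∀ i, ¬ isT i → y i = f i := fun i hi => by
      rw [← hy', scl_N hi]
    rcases hyT with hyT | hyT
    · funext i
      by_cases hi : isT i
      · rw [hyT i hi, hfT i hi]
      · exact hoff i hi
    · exact absurd ⟨y, hoff, hyT⟩ hno

end Pool.Agent.Q47.IP
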