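import Pool.Agent.Q230.IP.St2

set_option autoImplicit false

/-!
# Project IP: the chain of squares
-/

namespace Pool.Agent.Q47.IP

open Pool.Agent.Q230.IP

/-- the constants of the chain -/
noncomputable def ca : ℕ → ℝ
  | 0 => 1 / 2
  | (j + 1) => ca j ^ 2 / 2

theorem ca_pos (j : ℕ) : 0 < ca j := by
  induction j with
  | zero => unfold ca; norm_num
  | succ j ih => unfold ca; positivity

theorem ca_le (j : ℕ) : ca j ≤ 1 / 2 := by
  induction j with
  | zero => unfold ca; norm_num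
  | succ j ih =>
    unfold ca
    have := ca_pos j
    nlinarith

theorem ca_anti : Antitone ca := by
  refine antitone_nat_of_succ_le fun j => ?_
  have h1 := ca_pos j
  have h2 := ca_le j
  change ca j ^ 2 / 2 ≤ ca j
  nlinarith

theorem chn : S_chn := by
  intro m q N p hN hp ⟨κ0, hκ0, hk⟩
  have hq := ca_pos q
  refine ⟨min (ca q ^ 2) (ca q ^ 2 * κ0), by positivity, fun v y => ?_⟩
  by_contra hlt
  push Not at hlt
  have hS : 0 ≤ ∑ j ∈ Finset.range q, (y (j + 1) - y j ^ 2) ^ 2 :=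
    Finset.sum_nonneg fun j _ => sq_nonneg _
  have hpv := hp v
  set w : ℝ := 1 + ∑ i, v i ^ 2 with hw
  have hw1 : 1 ≤ w := by
    have : 0 ≤ ∑ i, v i ^ 2 := Finset.sum_nonneg fun j _ => sq_nonneg _
    linarith
  set R : ℝ := (y 0 - w) ^ 2 + ∑ j ∈ Finset.range q, (y (j + 1) - y j ^ 2) ^ 2 with hR
  have hR0 : 0 ≤ R := by positivity
  have h1 : p v + R < ca q ^ 2 := by
    have h2 : (1 + y q ^ 2) * (p v + R) < ca q ^ 2 := lt_of_lt_of_le hlt (min_le_left _ _)
    have h3 : 0 ≤ y q ^ 2 * (p v + R) := by positivity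
    nlinarith
  have h0 : (y 0 - w) ^ 2 < ca q ^ 2 := by linarith
  have hj : ∀ j < q, (y (j + 1) - y j ^ 2) ^ 2 < ca q ^ 2 := by
    intro j hj
    have := Finset.single_le_sum (f := fun j => (y (j + 1) - y j ^ 2) ^ 2) (fun j _ => sq_nonneg _)
      (Finset.mem_range.2 hj)
    have := sq_nonneg (y 0 - w)
    linarith
  have key : ∀ j ≤ q, ca j * w ^ 2 ^ j ≤ y j := by
    intro j
    induction j with
    | zero =>
      intro _
      have h2 := abs_lt_of_sq_lt_sq h0 hq.le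
      have h3 := (abs_lt.1 h2).1
      have h4 := ca_le q
      have h5 : ca 0 = 1 / 2 := rfl
      rw [h5]
      simp
      linarith
    | succ j ih =>
      intro hjq
      have h2 := ih (by omega)
      have h3 := abs_lt_of_sq_lt_sq (hj j (by omega)) hq.le
      have h4 := (abs_lt.1 h3).1
      have h5 : ca q ≤ ca (j + 1) := ca_anti hjq
      have h6 : ca (j + 1) = ca j ^ 2 / 2 := rfl
      have h7 : (1 : ℝ) ≤ w ^ 2 ^ (j + 1) := one_le_pow₀ hw1
      have h8 : (ca j * w ^ 2 ^ j) ^ 2 ≤ y j ^ 2 :=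
        pow_le_pow_left₀ (by have := ca_pos j; positivity) h2 2
      have h9 : (ca j * w ^ 2 ^ j) ^ 2 = ca j ^ 2 * w ^ 2 ^ (j + 1) := by
        rw [mul_pow, ← pow_mul, pow_succ 2 j]
      have h10 := ca_pos (j + 1)
      nlinarith
  have h2 := key q le_rfl
  have h3 : (ca q * w ^ 2 ^ q) ^ 2 ≤ y q ^ 2 := pow_le_pow_left₀ (by positivity) h2 2
  have h4 : (ca q * w ^ 2 ^ q) ^ 2 = ca q ^ 2 * w ^ 2 ^ (q + 1) := by
    rw [mul_pow, ← pow_mul, pow_succ 2 q]
  have h5 : w ^ N ≤ w ^ 2 ^ (q + 1) := pow_le_pow_right₀ hw1 hN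
  have h6 := hk v
  rw [← hw] at h6
  have h7 : ca q ^ 2 * κ0 ≤ y q ^ 2 * p v := by
    calc ca q ^ 2 * κ0 ≤ ca q ^ 2 * (w ^ N * p v) := mul_le_mul_of_nonneg_left h6 (by positivity)
      _ ≤ ca q ^ 2 * (w ^ 2 ^ (q + 1) * p v) :=
        mul_le_mul_of_nonneg_left (mul_le_mul_of_nonneg_right h5 hpv) (by positivity)
      _ = (ca q * w ^ 2 ^ q) ^ 2 * p v := by rw [h4]; ring
      _ ≤ y q ^ 2 * p v := mul_le_mul_of_nonneg_right h3 hpv
  have h8 : (1 + y q ^ 2) * (p v + R) < ca q ^ 2 * κ0 := lt_of_lt_of_le hlt (min_le_right _ _)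
  have h9 : 0 ≤ y q ^ 2 * R := by positivity
  nlinarith

end Pool.Agent.Q47.IP
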