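import Pool.Agent.Q47.IP.EV
import Pool.Agent.Q47.IP.CHN

set_option autoImplicit false

/-!
# Project IP: the instance
-/

namespace Pool.Agent.Q47.IP

open Pool.Agent.NPC Pool.Agent.NPC.ER Pool.Agent.NPC.H612 Pool.Agent.Q230.IP

/-! ### Lists -/

theorem list_sq_nonneg {α : Type} (l : List α) (f : α → ℝ) : 0 ≤ (l.map fun a => f a ^ 2).sum := by
  induction l with
  | nil => simp
  | cons a l ih =>
    rw [List.map_cons, List.sum_cons]
    have := sq_nonneg (f a)
    linarith

theorem list_sq_zero {α : Type} (l : List α) (f : α → ℝ) (h : (l.map fun a => f a ^ 2).sum ≤ 0) :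
    ∀ a ∈ l, f a = 0 := by
  induction l with
  | nil => simp
  | cons a l ih =>
    rw [List.map_cons, List.sum_cons] at h
    have h1 := sq_nonneg (f a)
    have h2 := list_sq_nonneg l f
    intro b hb
    rcases List.mem_cons.1 hb with rfl | hb
    · have : f b ^ 2 = 0 := by linarith
      exact pow_eq_zero_iff (two_ne_zero) |>.1 this
    · exact ih (by linarith) b hb

theorem list_sq_eq_zero {α : Type} (l : List α) (f : α → ℝ) (h : ∀ a ∈ l, f a = 0) :
    (l.map fun a => f a ^ 2).sum = 0 := by
  induction l with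
  | nil => simp
  | cons a l ih =>
    rw [List.map_cons, List.sum_cons, h a List.mem_cons_self,
      ih fun b hb => h b (List.mem_cons_of_mem _ hb)]
    simp

/-! ### Constraints -/

theorem wval_cw0 (V : List ℕ) (x : ℕ → ℝ) (c : Con) :
    wval x (cw0 V c) = 0 ↔ c.Holds fun w => x (V.idxOf w) := by
  cases c with
  | one i =>
    simp [cw0, wval, Con.Holds]
    constructor
    · intro h; linarith
    · intro h; linarith
  | add i j k =>
    simp [cw0, wval, Con.Holds]
    constructor
    · intro h; linarith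
    · intro h; linarith
  | mul i j k =>
    simp [cw0, wval, Con.Holds]
    constructor
    · intro h; linarith
    · intro h; linarith

theorem sys_cw0 (V : List ℕ) (x : ℕ → ℝ) (S : List Con) :
    (∀ c ∈ S, wval x (cw0 V c) = 0) ↔ SysHolds (fun w => x (V.idxOf w)) S := by
  unfold SysHolds
  exact forall₂_congr fun c _ => wval_cw0 V x c

theorem cw0_good {S : List Con} {c : Con} (hc : c ∈ S) :
    ∀ a ∈ cw0 (varsOf S) c, a.2.length ≤ 2 ∧ ∀ i ∈ a.2, i < (varsOf S).length := by
  have hv : ∀ w ∈ c.vars, (varsOf S).idxOf w < (varsOf S).length := fun w hw =>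
    List.idxOf_lt_length_iff.2 (List.mem_flatMap.2 ⟨c, hc, hw⟩)
  cases c with
  | one i =>
    have h1 := hv i (by simp [Con.vars])
    simp [cw0, h1]
  | add i j k =>
    have h1 := hv i (by simp [Con.vars])
    have h2 := hv j (by simp [Con.vars])
    have h3 := hv k (by simp [Con.vars])
    simp [cw0, h1, h2, h3]
  | mul i j k =>
    have h1 := hv i (by simp [Con.vars])
    have h2 := hv j (by simp [Con.vars])
    have h3 := hv k (by simp [Con.vars])
    simp [cw0, h1, h2, h3]

theorem wval_congr' {m : ℕ} {a b : ℕ → ℝ} (h : ∀ j < m, a j = b j) (g : PolyData)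
    (hg : ∀ t ∈ g, ∀ i ∈ t.2, i < m) : wval a g = wval b g := by
  unfold wval
  congr 1
  refine List.map_congr_left fun t ht => ?_
  congr 2
  exact List.map_congr_left fun i hi => h i (hg t ht i hi)

theorem gsys_good (S : List Con) (q : ℕ) :
    ∀ g ∈ gsys (varsOf S) S (varsOf S).length q, ∀ a ∈ g, a.2.length ≤ 2 ∧
      ∀ i ∈ a.2, i < (varsOf S).length + q + 1 := by
  intro g hg
  unfold gsys at hg
  rw [List.mem_append, List.mem_cons, List.mem_map, List.mem_map] at hg
  rcases hg with ⟨c, hc, rfl⟩ | rfl | ⟨j, hj, rfl⟩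
  · intro a ha
    obtain ⟨h1, h2⟩ := cw0_good hc a ha
    exact ⟨h1, fun i hi => by have := h2 i hi; omega⟩
  · intro a ha
    rw [List.mem_append, List.mem_map] at ha
    rcases ha with ha | ⟨l, hl, rfl⟩
    · simp only [List.mem_cons, List.not_mem_nil, or_false] at ha
      rcases ha with rfl | rfl
      · refine ⟨by simp, fun i hi => ?_⟩
        rw [List.mem_singleton] at hi
        omega
      · simp
    · have := List.mem_range.1 hl
      refine ⟨by simp, fun i hi => ?_⟩
      simp only [List.mem_cons, List.not_mem_nil, or_false, or_self] at hi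
      omega
  · have := List.mem_range.1 hj
    intro a ha
    simp only [List.mem_cons, List.not_mem_nil, or_false] at ha
    rcases ha with rfl | rfl
    · refine ⟨by simp, fun i hi => ?_⟩
      rw [List.mem_singleton] at hi
      omega
    · refine ⟨by simp, fun i hi => ?_⟩
      simp only [List.mem_cons, List.not_mem_nil, or_false, or_self] at hi
      omega

theorem EL_nodup (E V : List ℕ) : (EL E V).Nodup := List.nodup_range.filter _

theorem mem_EL (E V : List ℕ) (j : ℕ) : j ∈ EL E V ↔ j < V.length ∧ isE E (V.getD j 0) = true := by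
  unfold EL
  rw [List.mem_filter, List.mem_range]

theorem gsys_sum (V : List ℕ) (S : List Con) (m q : ℕ) (x : ℕ → ℝ) :
    ((gsys V S m q).map fun g => wval x g ^ 2).sum =
    (S.map fun c => wval x (cw0 V c) ^ 2).sum +
      ((x m - (1 + ∑ l : Fin m, x l ^ 2)) ^ 2 +
        ∑ j ∈ Finset.range q, (x (m + (j + 1)) - x (m + j) ^ 2) ^ 2) := by
  unfold gsys
  rw [List.map_append, List.sum_append, List.map_map, List.map_cons, List.sum_cons, List.map_map]
  congr 1
  congr 1
  · rw [wv_append, wv_range, wv_cons, wv_cons, wv_nil]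
    simp only [List.map_cons, List.prod_cons, List.map_nil, List.prod_nil]
    push_cast
    have : ∑ i : Fin m, (-1 : ℝ) * (x i * (x i * 1)) = - ∑ l : Fin m, x l ^ 2 := by
      rw [← Finset.sum_neg_distrib]
      exact Finset.sum_congr rfl fun l _ => by ring
    rw [this]
    ring
  · rw [sum_range_list, ← Finset.sum_range (f := fun j => ((fun g => wval x g ^ 2) ∘
      fun j => [((1 : ℤ), [m + j + 1]), (-1, [m + j, m + j])]) j)]
    refine Finset.sum_congr rfl fun j _ => ?_
    simp only [Function.comp]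
    rw [wv_cons, wv_cons, wv_nil]
    simp only [List.map_cons, List.prod_cons, List.map_nil, List.prod_nil]
    push_cast
    rw [show m + j + 1 = m + (j + 1) by omega]
    ring

theorem phi_eval {n : ℕ} {el : List ℕ} {gs : List PolyData} (o : Fin n) (he : el.Nodup)
    (hel : ∀ l ∈ el, l < n) (x v : Fin n → ℝ) :
    (mkDat n el o gs).Phi x v = (el.map fun l => (xt v l - xt x l) ^ 2).sum +
      (gs.map fun g => wval (xt v) g ^ 2).sum := by
  unfold Dat.Phi
  rw [mkP_eval, sum_el he hel]
  congr 1
  refine Finset.sum_congr rfl fun l _ => ?_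
  have hE : (mkDat n el o gs).E l = decide ((l : ℕ) ∈ el) := rfl
  rw [hE, xt_fin, xt_fin]
  by_cases hl : (l : ℕ) ∈ el
  · simp [hl]
  · simp [hl]

/-! ### Degrees and norms -/

theorem deg_toMv (n d : ℕ) (g : PolyData) (hg : ∀ a ∈ g, a.2.length ≤ d) :
    (toMv n g).totalDegree ≤ d := by
  induction g with
  | nil => simp [toMv]
  | cons a g ih =>
    rw [toMv_cons]
    refine (MvPolynomial.totalDegree_add _ _).trans (max_le ?_
      (ih fun b hb => hg b (List.mem_cons_of_mem _ hb)))
    refine (MvPolynomial.totalDegree_mul _ _).trans ?_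
    rw [MvPolynomial.totalDegree_C, zero_add]
    refine le_trans ?_ (hg a List.mem_cons_self)
    obtain ⟨c, L⟩ := a
    simp only
    clear hg ih
    induction L with
    | nil => simp
    | cons i L ih =>
      rw [List.map_cons, List.prod_cons, List.length_cons]
      refine (MvPolynomial.totalDegree_mul _ _).trans ?_
      have : (if h : i < n then MvPolynomial.X ⟨i, h⟩ else 0 :
          MvPolynomial (Fin n) ℤ).totalDegree ≤ 1 := by
        split_ifs
        · simp
        · simp
      omega

theorem nrm_add {σ : Type} (p q : MvPolynomial σ ℤ) : nrm (p + q) ≤ nrm p + nrm q :=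
  Pool.Agent.H612.RNorm.mν_add _ _ _

theorem nrm_mul {σ : Type} (p q : MvPolynomial σ ℤ) : nrm (p * q) ≤ nrm p * nrm q :=
  Pool.Agent.H612.RNorm.mν_mul _ _ _

theorem nrm_zero {σ : Type} : nrm (0 : MvPolynomial σ ℤ) = 0 :=
  Pool.Agent.H612.RNorm.mν_zero _

theorem nrm_toMv (n : ℕ) (g : PolyData) : nrm (toMv n g) ≤ (g.map fun a => a.1.natAbs).sum := by
  induction g with
  | nil => simp [toMv, nrm_zero]
  | cons a g ih =>
    rw [toMv_cons, List.map_cons, List.sum_cons]
    refine (nrm_add _ _).trans (Nat.add_le_add ?_ ih)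
    refine (nrm_mul _ _).trans ?_
    obtain ⟨c, L⟩ := a
    simp only
    have h1 : nrm (MvPolynomial.C c : MvPolynomial (Fin n) ℤ) = c.natAbs := by
      unfold nrm
      rw [Pool.Agent.H612.RNorm.mν_C]
      rfl
    have h2 : nrm ((L.map fun i => if h : i < n then (MvPolynomial.X ⟨i, h⟩ :
        MvPolynomial (Fin n) ℤ) else 0).prod) ≤ 1 := by
      induction L with
      | nil => exact Pool.Agent.H612.RNorm.mν_one _
      | cons i L ih =>
        rw [List.map_cons, List.prod_cons]
        refine (nrm_mul _ _).trans ?_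
        have : nrm (if h : i < n then MvPolynomial.X ⟨i, h⟩ else 0 :
            MvPolynomial (Fin n) ℤ) ≤ 1 := by
          split_ifs
          · exact Pool.Agent.H612.RNorm.mν_X _ _
          · rw [nrm_zero]; omega
        calc _ ≤ 1 * 1 := Nat.mul_le_mul this ih
          _ = 1 := rfl
    rw [h1]
    calc _ ≤ c.natAbs * 1 := Nat.mul_le_mul_left _ h2
      _ = _ := mul_one _

theorem nrm_sq_sum {n : ℕ} (gs : List PolyData) :
    nrm ((gs.map fun g => toMv n g ^ 2).sum) ≤
      (gs.map fun g => ((g.map fun a => a.1.natAbs).sum) ^ 2).sum := by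
  induction gs with
  | nil => simp [nrm_zero]
  | cons g gs ih =>
    rw [List.map_cons, List.sum_cons, List.map_cons, List.sum_cons]
    refine (nrm_add _ _).trans (Nat.add_le_add ?_ ih)
    rw [pow_two, pow_two]
    exact (nrm_mul _ _).trans (Nat.mul_le_mul (nrm_toMv n g) (nrm_toMv n g))

theorem deg_sq_sum {n : ℕ} (gs : List PolyData) (hg : ∀ g ∈ gs, ∀ a ∈ g, a.2.length ≤ 2) :
    ((gs.map fun g => toMv n g ^ 2).sum).totalDegree ≤ 4 := by
  induction gs with
  | nil => simp
  | cons g gs ih =>
    rw [List.map_cons, List.sum_cons]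
    refine (MvPolynomial.totalDegree_add _ _).trans (max_le ?_
      (ih fun b hb => hg b (List.mem_cons_of_mem _ hb)))
    refine (MvPolynomial.totalDegree_pow _ _).trans ?_
    have := deg_toMv n 2 g (hg g List.mem_cons_self)
    omega

theorem gsys_norm (V : List ℕ) (S : List Con) (m q : ℕ) :
    ((gsys V S m q).map fun g => ((g.map fun a => a.1.natAbs).sum) ^ 2).sum ≤
      9 * S.length + (m + 2) ^ 2 + 4 * q := by
  unfold gsys
  rw [List.map_append, List.sum_append, List.map_map, List.map_cons, List.sum_cons, List.map_map]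
  have h1 : (S.map ((fun g : PolyData => ((g.map fun a => a.1.natAbs).sum) ^ 2) ∘ cw0 V)).sum ≤
      9 * S.length := by
    induction S with
    | nil => simp
    | cons c S ih =>
      rw [List.map_cons, List.sum_cons, List.length_cons]
      have : ((fun g : PolyData => ((g.map fun a => a.1.natAbs).sum) ^ 2) ∘ cw0 V) c ≤ 9 := by
        cases c with
        | one i => simp [cw0]
        | add i j k => simp [cw0]
        | mul i j k => simp [cw0]
      omega
  have h2 : ((List.map (fun a : ℤ × List ℕ => a.1.natAbs) ([((1 : ℤ), [m]), (-1, [])] ++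
      (List.range m).map fun l => ((-1 : ℤ), [l, l]))).sum) ^ 2 = (m + 2) ^ 2 := by
    congr 1
    rw [List.map_append, List.sum_append, List.map_map]
    have : ((List.range m).map ((fun a : ℤ × List ℕ => a.1.natAbs) ∘
        fun l => ((-1 : ℤ), [l, l]))).sum = m := by
      have : ((fun a : ℤ × List ℕ => a.1.natAbs) ∘ fun l : ℕ => ((-1 : ℤ), [l, l])) =
        fun _ => 1 := by funext l; simp
      rw [this]
      simp
    rw [this]
    simp
    omega
  have h3 : ((List.range q).map ((fun g : PolyData => ((g.map fun a => a.1.natAbs).sum) ^ 2) ∘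
      fun j => [((1 : ℤ), [m + j + 1]), (-1, [m + j, m + j])])).sum = 4 * q := by
    have : ((fun g : PolyData => ((g.map fun a => a.1.natAbs).sum) ^ 2) ∘
      fun j => [((1 : ℤ), [m + j + 1]), (-1, [m + j, m + j])]) = fun _ => 4 := by
      funext j
      simp
    rw [this]
    simp
    omega
  rw [h2, h3]
  omega

theorem NE_le (m : ℕ) : NE m ≤ 2 ^ (QQ m + 1) := by
  have h1 : NE m ≤ 2 ^ QQ m := by
    unfold NE QQ
    have h2 : 5 ^ m ≤ 2 ^ (3 * m) := by
      rw [pow_mul]
      exact Nat.pow_le_pow_left (by norm_num) m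
    have h3 : 7 + 4 * m + (17 + 16 * m) * C0 m ≤ 2 ^ (7 + 4 * m + (17 + 16 * m) * C0 m) :=
      Nat.lt_two_pow_self.le
    calc 5 ^ m * (7 + 4 * m + (17 + 16 * m) * C0 m) ≤
        2 ^ (3 * m) * 2 ^ (7 + 4 * m + (17 + 16 * m) * C0 m) := Nat.mul_le_mul h2 h3
      _ = 2 ^ (7 + 7 * m + (17 + 16 * m) * C0 m) := by
        rw [← pow_add]
        congr 1
        ring
  exact h1.trans (Nat.pow_le_pow_right (by norm_num) (by omega))

/-! ### The real polynomial -/

/-- the coordinate -/
noncomputable def XX (m : ℕ) (j : ℕ) : MvPolynomial (Fin m) ℝ :=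
  if h : j < m then MvPolynomial.X ⟨j, h⟩ else 0

/-- the polynomial in the first coordinates -/
noncomputable def rp (m : ℕ) (el : List ℕ) (u : ℕ → ℝ) (gs : List PolyData) :
    MvPolynomial (Fin m) ℝ :=
  (el.map fun j => (XX m j - MvPolynomial.C (u j)) ^ 2).sum +
    (gs.map fun g => (MvPolynomial.map (Int.castRingHom ℝ) (toMv m g)) ^ 2).sum

theorem eval_XX {m : ℕ} (v : Fin m → ℝ) (j : ℕ) : MvPolynomial.eval v (XX m j) = xt v j := by
  unfold XX xt
  split_ifs <;> simp

theorem eval_map_toMv {m : ℕ} (v : Fin m → ℝ) (g : PolyData) :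
    MvPolynomial.eval v (MvPolynomial.map (Int.castRingHom ℝ) (toMv m g)) = wval (xt v) g := by
  rw [← aeval_toMv, MvPolynomial.eval_map, MvPolynomial.aeval_def]
  rfl

theorem eval_rp {m : ℕ} (el : List ℕ) (u : ℕ → ℝ) (gs : List PolyData) (v : Fin m → ℝ) :
    MvPolynomial.eval v (rp m el u gs) = (el.map fun j => (xt v j - u j) ^ 2).sum +
      (gs.map fun g => wval (xt v) g ^ 2).sum := by
  unfold rp
  rw [map_add, map_list_sum, map_list_sum, List.map_map, List.map_map]
  congr 2
  · refine List.map_congr_left fun j _ => ?_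
    simp only [Function.comp]
    rw [map_pow, map_sub, eval_XX, MvPolynomial.eval_C]
  · refine List.map_congr_left fun j _ => ?_
    simp only [Function.comp]
    rw [map_pow, eval_map_toMv]

theorem list_deg {α σ : Type} {R : Type} [CommSemiring R] (l : List α) (f : α → MvPolynomial σ R)
    (d : ℕ) (h : ∀ a ∈ l, (f a).totalDegree ≤ d) : ((l.map f).sum).totalDegree ≤ d := by
  induction l with
  | nil => simp
  | cons a l ih =>
    rw [List.map_cons, List.sum_cons]
    exact (MvPolynomial.totalDegree_add _ _).trans (max_le (h a List.mem_cons_self)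
      (ih fun b hb => h b (List.mem_cons_of_mem _ hb)))

theorem deg_rp {m : ℕ} (el : List ℕ) (u : ℕ → ℝ) (gs : List PolyData)
    (hg : ∀ g ∈ gs, ∀ a ∈ g, a.2.length ≤ 2) : (rp m el u gs).totalDegree ≤ 4 := by
  unfold rp
  refine (MvPolynomial.totalDegree_add _ _).trans (max_le ?_ ?_)
  · refine list_deg _ _ _ fun j _ => ?_
    refine (MvPolynomial.totalDegree_pow _ _).trans ?_
    have h1 : (XX m j - MvPolynomial.C (u j)).totalDegree ≤ 1 := by
      refine (MvPolynomial.totalDegree_sub _ _).trans (max_le ?_ ?_)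
      · unfold XX
        split_ifs
        · simp
        · simp
      · simp
    omega
  · refine list_deg _ _ _ fun g hgg => ?_
    refine (MvPolynomial.totalDegree_pow _ _).trans ?_
    have h0 : (MvPolynomial.map (Int.castRingHom ℝ) (toMv m g)).totalDegree ≤
        (toMv m g).totalDegree := by
      unfold MvPolynomial.totalDegree
      exact Finset.sup_mono (MvPolynomial.support_map_subset _ _)
    have h1 := h0.trans (deg_toMv m 2 g (hg g hgg))
    omega

/-! ### The theorem -/

theorem inst_pos (hl : S_loj) (E : List ℕ) (S : List Con)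
    (h : ∃ u, W0 (exC E (varsOf S)) u ∧ ∀ w, U0 (exC E (varsOf S)) w →
      psiC (varsOf S) S fun j => u j + w j) :
    ∃ x0 : Fin (nn (varsOf S).length) → ℝ, ∃ κ > 0,
    ∀ v : Fin (nn (varsOf S).length) → ℝ, κ ≤ (1 + v (datS E S).o ^ 2) * (datS E S).Phi x0 v := by
  set V := varsOf S with hV
  set m := V.length with hm
  obtain ⟨u, -, hu⟩ := h
  have hpos : ∀ v : Fin m → ℝ, 0 < MvPolynomial.eval v (rp m (EL E V) (xt u) (S.map (cw0 V))) := by
    intro v
    rw [eval_rp, List.map_map]
    by_contra hlt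
    push Not at hlt
    have h1 := list_sq_nonneg (EL E V) fun j => xt v j - xt u j
    have h2 := list_sq_nonneg S fun c => wval (xt v) (cw0 V c)
    have h2' : ((S.map ((fun g => wval (xt v) g ^ 2) ∘ cw0 V)).sum) =
      (S.map fun c => wval (xt v) (cw0 V c) ^ 2).sum := rfl
    rw [h2'] at hlt
    have h3 := list_sq_zero (EL E V) (fun j => xt v j - xt u j) (by linarith)
    have h4 := list_sq_zero S (fun c => wval (xt v) (cw0 V c)) (by linarith)
    rw [sys_cw0] at h4
    have h5 := hu (fun j => v j - u j) (by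
      intro j hj
      have := h3 j ((mem_EL E V j).2 ⟨j.2, hj⟩)
      simp only [xt_fin] at this
      exact this)
    unfold psiC at h5
    apply h5
    have h6 : (fun j => u j + (v j - u j)) = v := by funext j; ring
    rw [h6]
    exact h4
  obtain ⟨κ0, hκ0, hk⟩ := hl m _ (deg_rp (EL E V) (xt u) (S.map (cw0 V)) (by
    intro g hg a ha
    obtain ⟨c, hc, rfl⟩ := List.mem_map.1 hg
    exact (cw0_good hc a ha).1)) hpos
  obtain ⟨κ, hκ, hk2⟩ := chn m (QQ m) (NE m) _ (NE_le m) (fun v => (hpos v).le) ⟨κ0, hκ0, hk⟩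
  refine ⟨fun l => xt u l, κ, hκ, fun v => ?_⟩
  have h1 := hk2 (fun i => xt v i) (fun j => xt v (m + j))
  refine h1.trans (le_of_eq ?_)
  have ho : xt v (m + QQ m) = v (datS E S).o := xt_fin v (datS E S).o
  rw [ho]
  congr 1
  unfold datS
  rw [phi_eval _ (EL_nodup E _) (fun l hl => by
    have := ((mem_EL E _ l).1 hl).1
    unfold nn
    omega), gsys_sum, eval_rp, add_assoc]
  have hlt : ∀ l < m, xt (fun i : Fin m => xt v i) l = xt v l := by
    intro l hl
    exact xt_fin (fun i : Fin m => xt v i) ⟨l, hl⟩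
  congr 1
  · congr 1
    refine List.map_congr_left fun l hl => ?_
    have h2 := ((mem_EL E V l).1 hl).1
    rw [hlt l h2]
    have h3 : l < nn m := by unfold nn; omega
    have h4 : xt (fun l : Fin (nn m) => xt u l) l = xt u l :=
      xt_fin (fun l : Fin (nn m) => xt u l) ⟨l, h3⟩
    rw [h4]
  · congr 1
    rw [List.map_map]
    congr 1
    refine List.map_congr_left fun c hc => ?_
    simp only [Function.comp]
    rw [wval_congr' hlt (cw0 V c) fun t ht i hi => (cw0_good hc t ht).2 i hi]

/-- the chain of squares -/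
noncomputable def chz (z0 : ℝ) : ℕ → ℝ
  | 0 => z0
  | (j + 1) => chz z0 j ^ 2

theorem inst_neg (E : List ℕ) (S : List Con)
    (h : ¬ ∃ u, W0 (exC E (varsOf S)) u ∧ ∀ w, U0 (exC E (varsOf S)) w →
      psiC (varsOf S) S fun j => u j + w j) : ∀ x : Fin (nn (varsOf S).length) → ℝ,
    ∃ v, (datS E S).Phi x v = 0 := by
  classical
  set V := varsOf S with hV
  set m := V.length with hm
  intro x
  have h1 : ∃ w, U0 (exC E V) w ∧ SysHolds (fun a => xt (fun j =>
      (if exC E V j then xt x j else 0) + w j) (V.idxOf a)) S := by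
    by_contra hno
    push Not at hno
    exact h ⟨fun j => if exC E V j then xt x j else 0, fun j hj => if_neg hj,
      fun w hw => hno w hw⟩
  obtain ⟨w, hw, hs⟩ := h1
  set v' : Fin m → ℝ := fun j => (if exC E V j then xt x j else 0) + w j with hv'
  let z : ℕ → ℝ := chz (1 + ∑ l : Fin m, v' l ^ 2)
  let v : Fin (nn m) → ℝ := fun l => if (l : ℕ) < m then xt v' l else z (l - m)
  have e1 : ∀ l < m, xt v l = xt v' l := by
    intro l hl
    have h3 : l < nn m := by unfold nn; omega
    have h4 : xt v l = v ⟨l, h3⟩ := xt_fin v ⟨l, h3⟩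
    rw [h4]
    simp only [v]
    rw [if_pos hl]
  have e2 : ∀ j ≤ QQ m, xt v (m + j) = z j := by
    intro j hj
    have h3 : m + j < nn m := by unfold nn; omega
    have h4 : xt v (m + j) = v ⟨m + j, h3⟩ := xt_fin v ⟨m + j, h3⟩
    rw [h4]
    simp only [v]
    rw [if_neg (by omega)]
    congr 1
    omega
  refine ⟨v, ?_⟩
  unfold datS
  rw [phi_eval _ (EL_nodup E _) (fun l hl => by
    have := ((mem_EL E _ l).1 hl).1
    unfold nn
    omega), gsys_sum]
  have s1 : ((EL E V).map fun l => (xt v l - xt x l) ^ 2).sum = 0 := by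
    refine list_sq_eq_zero _ _ fun l hl => ?_
    obtain ⟨h2, h3⟩ := (mem_EL E V l).1 hl
    rw [e1 l h2]
    have h4 : xt v' l = v' ⟨l, h2⟩ := xt_fin v' ⟨l, h2⟩
    have h5 : exC E V ⟨l, h2⟩ := h3
    rw [h4, hv']
    simp only
    rw [if_pos h5, hw _ h5]
    ring
  have s2 : (S.map fun c => wval (xt v) (cw0 V c) ^ 2).sum = 0 := by
    refine list_sq_eq_zero _ _ ?_
    rw [← sys_cw0 V (fun l => xt v' l)] at hs
    intro c hc
    rw [wval_congr' e1 (cw0 V c) fun t ht i hi => (cw0_good hc t ht).2 i hi]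
    exact hs c hc
  have s3 : xt v m - (1 + ∑ l : Fin m, xt v l ^ 2) = 0 := by
    have := e2 0 (by omega)
    rw [add_zero] at this
    rw [this]
    have h6 : ∑ l : Fin m, xt v l ^ 2 = ∑ l : Fin m, v' l ^ 2 := by
      refine Finset.sum_congr rfl fun l _ => ?_
      rw [e1 l l.2, xt_fin]
    rw [h6]
    change chz _ 0 - _ = 0
    unfold chz
    ring
  have s4 : ∑ j ∈ Finset.range (QQ m), (xt v (m + (j + 1)) - xt v (m + j) ^ 2) ^ 2 = 0 := by
    refine Finset.sum_eq_zero fun j hj => ?_
    have := Finset.mem_range.1 hj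
    rw [e2 (j + 1) (by omega), e2 j (by omega)]
    change (chz _ (j + 1) - chz _ j ^ 2) ^ 2 = 0
    simp [chz]
  rw [s1, s2, s3, s4]
  ring

theorem inst (hl : S_loj) : S_inst := by
  intro E φ
  simp only
  set S := sysOf (Fm.not φ) with hS
  have hiff : EAR (E, φ) ↔ ∃ u, W0 (exC E (varsOf S)) u ∧ ∀ w, U0 (exC E (varsOf S)) w →
      psiC (varsOf S) S fun j => u j + w j := by
    rw [ear_iff_sys, ← ear_iff_pts]
  refine ⟨fun h => inst_pos hl E S (hiff.1 h), fun h => inst_neg E S (fun h' => h (hiff.2 h')),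
    fun v => ?_, ?_, ?_⟩
  · unfold datS
    rw [mkP_eval]
    exact list_sq_nonneg _ _
  · exact deg_sq_sum _ fun g hg a ha => (gsys_good S _ g hg a ha).1
  · refine (nrm_sq_sum _).trans ((gsys_norm _ _ _ _).trans ?_)
    exact Nat.lt_two_pow_self.le

end Pool.Agent.Q47.IP
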