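import Pool.Agent.Q230.IP.St2

set_option autoImplicit false

/-!
# Project IP: the problem is in the class
-/

namespace Pool.Agent.Q47.IP

open Pool.Agent.NPC Pool.Agent.NPC.ER Pool.Agent.NPC.H612 Pool.Agent.Q230.IP

/-- the difference of the coordinates -/
def dfT (c : ℕ) : Tm := Tm.add (Tm.var (3 * c + 1)) (Tm.neg (Tm.var (3 * c)))

/-- the formula of the problem -/
def ipFm (d : ℕ) (φ : QF) : Fm :=
  conj [subF d (fun c => Tm.var (3 * c)) φ, Fm.lt Tm.zero (Tm.var 2),
    Fm.or (Fm.not (Fm.and (subF d (fun c => Tm.var (3 * c + 1)) φ)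
      (Fm.lt (sumT ((List.range d).map fun c => Tm.mul (dfT c) (dfT c)))
        (Tm.mul (Tm.var 2) (Tm.var 2)))))
      (conj ((List.range d).map fun c => Fm.eq (Tm.var (3 * c + 1)) (Tm.var (3 * c))))]

/-- the sentence of the problem -/
def ipSent (a : List Unit × QF) : List ℕ × Fm :=
  (2 :: (List.range a.1.length).map fun n => 3 * n, ipFm a.1.length a.2)

theorem sum_range_list' (n : ℕ) (f : ℕ → ℝ) :
    ((List.range n).map f).sum = ∑ i : Fin n, f i := by
  rw [← Finset.sum_range]
  induction n with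
  | zero => simp
  | succ n ih =>
    rw [List.range_succ, List.map_append, List.sum_append, ih, Finset.sum_range_succ]
    simp

theorem holds_ipFm (d : ℕ) (φ : QF) (v : ℕ → ℝ) : (ipFm d φ).Holds v ↔
    (fun c : Fin d => v (3 * c)) ∈ gallery d φ ∧ 0 < v 2 ∧
    ((fun c : Fin d => v (3 * c + 1)) ∈ gallery d φ →
      ∑ i : Fin d, (v (3 * i + 1) - v (3 * i)) ^ 2 < v 2 ^ 2 →
      (fun c : Fin d => v (3 * c + 1)) = fun c : Fin d => v (3 * c)) := by
  unfold ipFm
  rw [holds_conj]
  simp only [List.mem_cons, List.not_mem_nil, or_false, forall_eq_or_imp, forall_eq]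
  refine and_congr ?_ (and_congr ?_ ?_)
  · rw [holds_subF]
    simp only [Tm.eval]
  · simp only [Fm.Holds, Tm.eval]
  · rw [Fm.Holds, Fm.Holds, Fm.Holds, holds_subF, holds_conj, ← imp_iff_not_or, and_imp]
    simp only [Tm.eval]
    refine imp_congr Iff.rfl (imp_congr ?_ ?_)
    · rw [Fm.Holds, eval_sumT, List.map_map]
      have : ((List.range d).map (Tm.eval v ∘ fun c => Tm.mul (dfT c) (dfT c))).sum =
          ∑ i : Fin d, (v (3 * i + 1) - v (3 * i)) ^ 2 := by
        rw [sum_range_list' d (Tm.eval v ∘ fun c => Tm.mul (dfT c) (dfT c))]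
        refine Finset.sum_congr rfl fun i _ => ?_
        simp only [Function.comp, dfT, Tm.eval]
        ring
      rw [this]
      simp only [Tm.eval]
      rw [pow_two (v 2)]
    · constructor
      · intro h
        funext c
        exact h _ (List.mem_map.2 ⟨c, List.mem_range.2 c.2, rfl⟩)
      · rintro h ψ hψ
        obtain ⟨c, hc, rfl⟩ := List.mem_map.1 hψ
        exact congrFun h ⟨c, List.mem_range.1 hc⟩

theorem isoPoint_iff (a : List Unit × QF) : IsoPoint a ↔ EAR (ipSent a) := by
  obtain ⟨du, φ⟩ := a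
  unfold IsoPoint ipSent EAR HasIso
  simp only
  generalize du.length = d
  set E := 2 :: (List.range d).map fun n => 3 * n with hE
  have mE : ∀ n, 3 * n ∈ E ↔ n < d := by
    intro n
    simp only [hE, List.mem_cons, List.mem_map, List.mem_range]
    constructor
    · rintro (h | ⟨m, hm, h⟩)
      · omega
      · omega
    · intro h
      exact Or.inr ⟨n, h, rfl⟩
  have m1 : ∀ n, 3 * n + 1 ∉ E := by
    intro n
    simp only [hE, List.mem_cons, List.mem_map, List.mem_range, not_or, not_exists, not_and]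
    exact ⟨by omega, fun m _ => by omega⟩
  have m2 : 2 ∈ E := by simp [hE]
  have vx : ∀ (x y : ℕ → ℝ) c (_ : c < d), mixv E x y (3 * c) = x (3 * c) := by
    intro x y c hc
    unfold mixv
    rw [if_pos ((mE c).2 hc)]
  have vy : ∀ (x y : ℕ → ℝ) c, mixv E x y (3 * c + 1) = y (3 * c + 1) := by
    intro x y c
    unfold mixv
    rw [if_neg (m1 c)]
  have v2 : ∀ (x y : ℕ → ℝ), mixv E x y 2 = x 2 := by
    intro x y
    unfold mixv
    rw [if_pos m2]
  have ex : ∀ (x y : ℕ → ℝ),
      (fun c : Fin d => mixv E x y (3 * c)) = fun c : Fin d => x (3 * c) :=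
    fun x y => funext fun c => vx x y c c.2
  have ey : ∀ (x y : ℕ → ℝ),
      (fun c : Fin d => mixv E x y (3 * c + 1)) = fun c : Fin d => y (3 * c + 1) :=
    fun x y => funext fun c => vy x y c
  have es : ∀ (x y : ℕ → ℝ), ∑ i : Fin d, (mixv E x y (3 * i + 1) - mixv E x y (3 * i)) ^ 2 =
      ∑ i : Fin d, (y (3 * i + 1) - x (3 * i)) ^ 2 := by
    intro x y
    refine Finset.sum_congr rfl fun i _ => ?_
    rw [vx x y i i.2, vy]
  have hH : ∀ x y : ℕ → ℝ, (ipFm d φ).Holds (mixv E x y) ↔
      ((fun c : Fin d => x (3 * c)) ∈ gallery d φ ∧ 0 < x 2 ∧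
    ((fun c : Fin d => y (3 * c + 1)) ∈ gallery d φ →
      ∑ i : Fin d, (y (3 * i + 1) - x (3 * i)) ^ 2 < x 2 ^ 2 →
      (fun c : Fin d => y (3 * c + 1)) = fun c : Fin d => x (3 * c))) := by
    intro x y
    rw [holds_ipFm, ex, ey, es, v2]
  simp only [hH]
  constructor
  · rintro ⟨x, hx, ε, hε, h⟩
    refine ⟨fun i => if i = 2 then ε else xt x (i / 3), fun y => ?_⟩
    have e1 : (fun c : Fin d => (fun i : ℕ => if i = 2 then ε else xt x (i / 3)) (3 * c)) = x := by
      funext c
      simp only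
      rw [if_neg (by omega), show 3 * (c : ℕ) / 3 = c by omega]
      exact xt_fin x c
    have e1' : ∀ c : Fin d, (fun i : ℕ => if i = 2 then ε else xt x (i / 3)) (3 * c) = x c :=
      fun c => congrFun e1 c
    refine ⟨by rw [e1]; exact hx, by simpa using hε, fun hy hlt => ?_⟩
    rw [e1]
    refine h _ hy ?_
    simp only [e1'] at hlt
    simpa using hlt
  · rintro ⟨x, h⟩
    refine ⟨fun c => x (3 * c), (h fun _ => 0).1, x 2, (h fun _ => 0).2.1, fun y hy hlt => ?_⟩
    have h1 := (h fun i => xt y (i / 3)).2.2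
    have e1 : (fun c : Fin d => (fun i : ℕ => xt y (i / 3)) (3 * c + 1)) = y := by
      funext c
      simp only
      rw [show (3 * (c : ℕ) + 1) / 3 = c by omega]
      exact xt_fin y c
    have e1' : ∀ c : Fin d, (fun i : ℕ => xt y (i / 3)) (3 * c + 1) = y c :=
      fun c => congrFun e1 c
    simp only [e1'] at h1
    exact h1 hy hlt

theorem poly_ipSent : Poly ipSent := by
  have hd : UPoly (fun a : List Unit × QF => a.1.length) := UPoly.length (Poly.fst Poly.id)
  have hφ : Poly (fun a : List Unit × QF => a.2) := Poly.snd Poly.id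
  have hc : Poly (fun q : (List Unit × QF) × ℕ => 3 * q.2) := NPC.Poly.mul (NPC.Poly.const 3) (Poly.snd Poly.id)
  have hc1 : Poly (fun q : (List Unit × QF) × ℕ => 3 * q.2 + 1) := NPC.Poly.succ hc
  have hx : Poly (fun q : (List Unit × QF) × ℕ => Tm.var (3 * q.2)) := poly_tvar hc
  have hy : Poly (fun q : (List Unit × QF) × ℕ => Tm.var (3 * q.2 + 1)) := poly_tvar hc1
  have hdf : Poly (fun q : (List Unit × QF) × ℕ => dfT q.2) := poly_tadd hy (poly_tneg hx)
  unfold ipSent ipFm
  refine Poly.pair (Poly.cons (NPC.Poly.const 2) (NPC.Poly.map (F := fun _ n => 3 * n) hd.range hc)) ?_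
  refine poly_conj (Poly.cons (poly_subF (σ := fun (_ : List Unit × QF) c => Tm.var (3 * c))
    hd.toPoly hx hφ) (Poly.cons (poly_flt (NPC.Poly.const _) (NPC.Poly.const _))
    (Poly.cons (poly_for (poly_fnot (poly_fand (poly_subF
      (σ := fun (_ : List Unit × QF) c => Tm.var (3 * c + 1)) hd.toPoly hy hφ)
      (poly_flt (poly_sumT (NPC.Poly.map (F := fun _ c => Tm.mul (dfT c) (dfT c)) hd.range
        (poly_tmul hdf hdf))) (NPC.Poly.const _))))
      (poly_conj (NPC.Poly.map (F := fun _ c => Fm.eq (Tm.var (3 * c + 1)) (Tm.var (3 * c))) hd.range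
        (poly_feq hy hx)))) (NPC.Poly.const []))))

theorem mem : S_mem := InEAR.of_poly (f := ipSent) poly_ipSent isoPoint_iff

end Pool.Agent.Q47.IP
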