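import Pool.Agent.Q47.IP.CHQ

set_option autoImplicit false

/-!
# Project IP: the meaning of the main part and of the violation part
-/

namespace Pool.Agent.Q47.IP

open Pool.Agent.NPC Pool.Agent.NPC.ER Pool.Agent.NPC.H612 Pool.Agent.Q230.IP

theorem val_qall' {d : ℕ} (f : Fin d → ℝ) (l : List QF) :
    (qall l).Val (wval (xt f)) ↔ ∀ φ ∈ l, φ.Val (wval (xt f)) :=
  val_qall _ (Pool.Agent.NPC.H612.wval_nil _) l

theorem val_qor' {d : ℕ} (f : Fin d → ℝ) (l : List QF) :
    (qor l).Val (wval (xt f)) ↔ ∃ φ ∈ l, φ.Val (wval (xt f)) := by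
  unfold qor
  rw [QF.Val, val_qall']
  simp only [List.mem_map, forall_exists_index, and_imp, forall_apply_eq_imp_iff₂, QF.Val]
  push Not
  rfl

theorem kkt_val (W : List ℕ) (f : Fin W.length → ℝ) (n T : ℕ) {el : List ℕ} {gs : List PolyData}
    (o : Fin n) (p : Par n T → ℝ) (hG : Good n el gs)
    (hp : ∀ i, env W f (8 * pos n T i + 1) = p i)
    (hu : ∀ i ≤ n, ∀ t < T, ∀ j < 2 * n + 7,
      env W f (nu n (bU n T i) t j) = uu t (dv n (env W f) i) ^ j)
    (r : ℕ) (hr : r ≤ n) (t : Fin T) :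
    (∀ φ ∈ kktQ W n T el gs o r t, φ.Val (wval (xt f))) ↔
    (Kkt (mkDat n el o gs) p r t (fun l => env W f (8 * (l : ℕ) + 2))
      (fun i => dv n (env W f) i) (fun i => env W f (8 * (i : ℕ) + 5)) (env W f 7) ∧
      ∀ i, r < i → i ≤ n → env W f (8 * i + 5) = 0 ∧ ∀ l < n, env W f (bV n i + 8 * l) = 0) := by
  set ν := env W f with hν
  set x : Fin n → ℝ := fun l => ν (8 * (l : ℕ) + 2) with hx
  have hPX : IsPX ν p x := ⟨hp, fun l => rfl⟩
  have hN : ∀ i ≤ n, IsNd n T ν (bV n i) (bU n T i) 1 (dv n ν i) := by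
    intro i hi
    refine ⟨fun l => by unfold dv; ring, fun t ht j hj => ?_⟩
    rw [one_mul]
    exact hu i hi t ht j hj
  have vF : ∀ i ≤ n, wval ν (FL n T el gs o false (bV n i) (bU n T i)) =
      (mkDat n el o gs).FF p x (dv n ν i) := by
    intro i hi
    have := evF n T el gs o false (bV n i) (bU n T i) ν 1 p x (dv n ν i) hG hPX (hN i hi)
      (fun h => by simp at h) (fun _ => rfl)
    rw [this]
    ring
  have vV : ∀ i ≤ n, ∀ l : Fin n, wval ν (dvL n T el gs o (bV n i) (bU n T i) l) =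
      (mkDat n el o gs).FFV p l x (dv n ν i) := by
    intro i hi l
    exact evV n T el gs o (bV n i) (bU n T i) ν p x (dv n ν i) hG hPX (hN i hi) l
  have vX : ∀ i ≤ n, ∀ l : Fin n, wval ν (dxL el o (bV n i) l) =
      (mkDat n el o gs).FFX p l x (dv n ν i) := by
    intro i hi l
    exact evX n T el gs o (bV n i) (bU n T i) ν p x (dv n ν i) hG hPX (hN i hi) l
  have e1 : ∀ i ≤ n, ((eqW W (FL n T el gs o false (bV n i) (bU n T i) ++ [(-1, [7])])).Val
      (wval (xt f)) ↔ (mkDat n el o gs).FF p x (dv n ν i) = ν 7) := by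
    intro i hi
    rw [val_eqW, ← hν, wv_append, vF i hi, wv_one]
    simp only [List.map_cons, List.prod_cons, List.map_nil, List.prod_nil]
    push_cast
    constructor
    · intro h; linarith
    · intro h; linarith
  have e2 : ∀ i ≤ n, ∀ l : Fin n, ((eqW W (dvL n T el gs o (bV n i) (bU n T i) l)).Val
      (wval (xt f)) ↔ (mkDat n el o gs).FFV p l x (dv n ν i) = 0) := by
    intro i hi l
    rw [val_eqW, ← hν, vV i hi]
  have e3 : (eqW W (((List.range (r + 1)).map fun i => ((1 : ℤ), [8 * i + 5])) ++ [(-1, [])])).Val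
      (wval (xt f)) ↔ ∑ i : Fin (r + 1), ν (8 * (i : ℕ) + 5) = 1 := by
    rw [val_eqW, ← hν, wv_append, wv_range, wv_one]
    simp only [List.map_cons, List.prod_cons, List.map_nil, List.prod_nil]
    push_cast
    simp only [one_mul, mul_one]
    constructor
    · intro h; linarith
    · intro h; linarith
  have e4 : ∀ l : Fin n, ((eqW W ((List.range (r + 1)).flatMap fun i =>
      mulL [(1, [8 * i + 5])] (dxL el o (bV n i) l))).Val (wval (xt f)) ↔
      ∑ i : Fin (r + 1), ν (8 * (i : ℕ) + 5) * (mkDat n el o gs).FFX p l x (dv n ν i) = 0) := by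
    intro l
    rw [val_eqW, ← hν, wv_rangeF]
    have : ∑ i : Fin (r + 1), wval ν (mulL [((1 : ℤ), [8 * (i : ℕ) + 5])] (dxL el o (bV n i) l)) =
        ∑ i : Fin (r + 1), ν (8 * (i : ℕ) + 5) * (mkDat n el o gs).FFX p l x (dv n ν i) := by
      refine Finset.sum_congr rfl fun i _ => ?_
      rw [wv_mulL, wv_one, vX i (by have := i.2; omega)]
      simp only [List.map_cons, List.prod_cons, List.map_nil, List.prod_nil]
      push_cast
      ring
    rw [this]
  have e5 : ∀ i ≤ n, ∀ i' ≤ n, ((QF.not (eqW W [(1, [nu n (bU n T i) t 1]),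
      (-1, [nu n (bU n T i') t 1])])).Val (wval (xt f)) ↔
      uu t (dv n ν i) ≠ uu t (dv n ν i')) := by
    intro i hi i' hi'
    rw [QF.Val, val_eqW, ← hν, wv_cons, wv_one]
    simp only [List.map_cons, List.prod_cons, List.map_nil, List.prod_nil]
    rw [hu i hi t t.2 1 (by omega), hu i' hi' t t.2 1 (by omega)]
    push_cast
    rw [not_iff_not]
    constructor
    · intro h; linarith
    · intro h; linarith
  have e6 : ∀ a : ℕ, ((eqW W [(1, [a])]).Val (wval (xt f)) ↔ ν a = 0) := by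
    intro a
    rw [val_eqW, ← hν, wv_one]
    simp
  unfold kktQ
  simp only [List.mem_append, List.mem_cons, List.mem_map, List.mem_range, List.mem_flatMap]
  constructor
  · intro H
    refine ⟨⟨fun i => ?_, fun i l => ?_, ?_, fun l => ?_, ?_⟩, ?_⟩
    · exact (e1 i (by have := i.2; omega)).1 (H _ (Or.inl ⟨i, i.2, rfl⟩))
    · exact (e2 i (by have := i.2; omega) l).1 (H _ (Or.inr (Or.inl ⟨i, i.2, l, l.2, rfl⟩)))
    · exact e3.1 (H _ (Or.inr (Or.inr (Or.inl rfl))))
    · exact (e4 l).1 (H _ (Or.inr (Or.inr (Or.inr (Or.inl ⟨l, l.2, rfl⟩)))))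
    · have h5 : ∀ i i' : Fin (r + 1), i' < i → uu t (dv n ν i) ≠ uu t (dv n ν i') := by
        intro i i' hii
        exact (e5 i (by have := i.2; omega) i' (by have := i'.2; omega)).1
          (H _ (Or.inr (Or.inr (Or.inr (Or.inr (Or.inl ⟨i, i.2, i', hii, rfl⟩))))))
      intro i i' hii
      rcases lt_or_gt_of_ne hii with h6 | h6
      · exact (h5 i' i h6).symm
      · exact h5 i i' h6
    · intro i hri hin
      have hk : i - (r + 1) < n - r := by omega
      have hk2 : r + 1 + (i - (r + 1)) = i := by omega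
      constructor
      · have := H _ (Or.inr (Or.inr (Or.inr (Or.inr (Or.inr ⟨i - (r + 1), hk, Or.inl rfl⟩)))))
        rw [e6, hk2] at this
        exact this
      · intro l hl
        have := H _ (Or.inr (Or.inr (Or.inr (Or.inr (Or.inr ⟨i - (r + 1), hk,
          Or.inr ⟨l, hl, rfl⟩⟩)))))
        rw [e6, hk2] at this
        exact this
  · rintro ⟨⟨K1, K2, K3, K4, K5⟩, K6⟩ φ (⟨i, hi, rfl⟩ | ⟨i, hi, l, hl, rfl⟩ | rfl | ⟨l, hl, rfl⟩ |
      ⟨i, hi, i', hi', rfl⟩ | ⟨k, hk, rfl | ⟨l, hl, rfl⟩⟩)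
    · exact (e1 i (by omega)).2 (K1 ⟨i, hi⟩)
    · exact (e2 i (by omega) ⟨l, hl⟩).2 (K2 ⟨i, hi⟩ ⟨l, hl⟩)
    · exact e3.2 K3
    · exact (e4 ⟨l, hl⟩).2 (K4 ⟨l, hl⟩)
    · refine (e5 i (by omega) i' (by omega)).2 (K5 ⟨i, hi⟩ ⟨i', by omega⟩ ?_)
      intro h
      have := congrArg Fin.val h
      simp only at this
      omega
    · exact (e6 _).2 (K6 (r + 1 + k) (by omega) (by omega)).1
    · exact (e6 _).2 ((K6 (r + 1 + k) (by omega) (by omega)).2 l hl)

theorem pow_node (W : List ℕ) (f : Fin W.length → ℝ) (n T i : ℕ) :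
    (∀ φ ∈ powQ W n T false (bV n i) (bU n T i), φ.Val (wval (xt f))) ↔
    ∀ t < T, ∀ j < 2 * n + 7, env W f (nu n (bU n T i) t j) = uu t (dv n (env W f) i) ^ j := by
  rw [pwq W f n T false (bV n i) (bU n T i) 1 one_pos (fun h => by simp at h) (fun _ => rfl)]
  unfold IsNd
  simp only [div_one, one_mul]
  exact ⟨fun h => h.2, fun h => ⟨fun _ => trivial, h⟩⟩

theorem mnq : S_mnq := by
  intro W f n T La p g el gs o hLa hp hG
  unfold mainQ MainC
  rw [QF.Val, val_qall', val_qor']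
  have h1 : (∀ φ ∈ chainQ W n T La p g ++ (List.range (n + 1)).flatMap fun i =>
      powQ W n T false (bV n i) (bU n T i), φ.Val (wval (xt f))) ↔
      ((∀ j < La, env W f (8 * j) = zz j) ∧
      (∀ i : Par n T, env W f (8 * pos n T i + 1) = pv (fun k => zz (p + g * k)) i)) ∧
      (∀ i ≤ n, ∀ t < T, ∀ j < 2 * n + 7,
        env W f (nu n (bU n T i) t j) = uu t (dv n (env W f) i) ^ j) := by
    rw [← chq W f n T La p g hLa hp]
    constructor
    · intro H
      refine ⟨fun φ hφ => H φ (List.mem_append.2 (Or.inl hφ)), fun i hi => ?_⟩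
      rw [← pow_node]
      intro φ hφ
      exact H φ (List.mem_append.2 (Or.inr (List.mem_flatMap.2
        ⟨i, List.mem_range.2 (by omega), hφ⟩)))
    · rintro ⟨H1, H2⟩ φ hφ
      rcases List.mem_append.1 hφ with h | h
      · exact H1 φ h
      · obtain ⟨i, hi, h⟩ := List.mem_flatMap.1 h
        exact (pow_node W f n T i).2 (H2 i (by have := List.mem_range.1 hi; omega)) φ h
  rw [h1, and_assoc, and_assoc]
  refine and_congr_right fun _ => and_congr_right fun hpp => and_congr_right fun hu => ?_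
  simp only [List.mem_flatMap, List.mem_map, List.mem_range]
  constructor
  · rintro ⟨φ, ⟨r, hr, t, ht, rfl⟩, H⟩
    rw [val_qall'] at H
    exact ⟨r, by omega, ⟨t, ht⟩, (kkt_val W f n T o _ hG hpp hu r (by omega) ⟨t, ht⟩).1 H⟩
  · rintro ⟨r, hr, t, H⟩
    refine ⟨_, ⟨r, by omega, t, t.2, rfl⟩, ?_⟩
    rw [val_qall']
    exact (kkt_val W f n T o _ hG hpp hu r hr t).2 H

theorem vlq : S_vlq := by
  intro W f n T k el gs o p hG hp
  unfold violQ ViolC
  rw [val_qall']
  simp only [List.forall_mem_cons]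
  rw [QF.Val, QF.Val, wval_ren, wval_ren, wv_one]
  set ν := env W f with hν
  have h0 : (((1 : ℤ) : ℤ) : ℝ) * (([6] : List ℕ).map ν).prod = ν 6 := by simp
  rw [h0]
  refine and_congr_right fun h6 => ?_
  rw [pwq W f n T true bVt (bUt n) (ν 6) h6 (fun _ => rfl) (fun h => by simp at h)]
  rw [and_comm]
  refine and_congr_right fun hN => ?_
  rw [wv_cons, wv_negL]
  have hx : IsPX ν p (fun l => ν (8 * (l : ℕ) + 2)) := ⟨hp, fun l => rfl⟩
  rw [evF n T el gs o true bVt (bUt n) ν (ν 6) p _ (tp n ν) hG hx hN (fun _ => rfl)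
    (fun h => by simp at h)]
  rw [List.map_cons, List.prod_cons, sL_prod (fun _ => rfl) (fun h => by simp at h)]
  have h7 : 0 < ν 6 ^ 6 := by positivity
  have h8 : (((1 : ℤ) : ℤ) : ℝ) * (ν (8 * k) * ν 6 ^ 6) +
      -(ν 6 ^ 6 * (mkDat n el o gs).FF p (fun l => ν (8 * (l : ℕ) + 2)) (tp n ν)) =
      ν 6 ^ 6 * (ν (8 * k) - (mkDat n el o gs).FF p (fun l => ν (8 * (l : ℕ) + 2)) (tp n ν)) := by
    push_cast
    ring
  rw [h8]
  constructor
  · intro h
    have := (mul_pos_iff_of_pos_left h7).1 h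
    linarith
  · intro h
    exact mul_pos h7 (by linarith)

end Pool.Agent.Q47.IP
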