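import Pool.Agent.Q230.IP.St2

set_option autoImplicit false

/-!
# Project IP: the list of the names
-/

namespace Pool.Agent.Q47.IP

open Pool.Agent.NPC Pool.Agent.NPC.ER Pool.Agent.NPC.H612 Pool.Agent.Q230.IP

theorem mem_part (N r k : ℕ) : k ∈ ((List.range N).map fun j => 8 * j + r) ↔ ∃ j < N, k = 8 * j + r := by
  simp only [List.mem_map, List.mem_range]
  exact ⟨fun ⟨j, h1, h2⟩ => ⟨j, h1, h2.symm⟩, fun ⟨j, h1, h2⟩ => ⟨j, h1, h2.symm⟩⟩

theorem nodup_part (N r : ℕ) : ((List.range N).map fun j => 8 * j + r).Nodup :=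
  List.Nodup.map (fun a b h => by have h' : 8 * a + r = 8 * b + r := h; omega) List.nodup_range

theorem split_mul (a b j : ℕ) : j < a * b ↔ ∃ x < a, ∃ y < b, j = x * b + y := by
  constructor
  · intro h
    have hb : 0 < b := by
      rcases Nat.eq_zero_or_pos b with hb | hb
      · subst hb; simp at h
      · exact hb
    refine ⟨j / b, (Nat.div_lt_iff_lt_mul hb).2 h, j % b, Nat.mod_lt _ hb, ?_⟩
    rw [Nat.mul_comm]
    exact (Nat.div_add_mod j b).symm
  · rintro ⟨x, hx, y, hy, rfl⟩
    calc x * b + y < x * b + b := by omega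
      _ = (x + 1) * b := by ring
      _ ≤ a * b := Nat.mul_le_mul_right _ hx

theorem nms : S_nms := by
  intro n T La
  have e0 : ((List.range La).map fun j => 8 * j) = (List.range La).map fun j => 8 * j + 0 := rfl
  have hnm : names n T La = ((List.range La).map fun j => 8 * j + 0) ++
  (((List.range (LL n T)).map fun j => 8 * j + 1) ++
  (((List.range n).map fun j => 8 * j + 2) ++
  (((List.range ((n + 1) * n)).map fun j => 8 * j + 3) ++
  (((List.range ((n + 1) * T * (2 * n + 7))).map fun j => 8 * j + 4) ++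
  (((List.range (n + 1)).map fun j => 8 * j + 5) ++
  (((List.range (1 + n + T * (2 * n + 7))).map fun j => 8 * j + 6) ++ [7])))))) := rfl
  constructor
  · rw [hnm]
    simp only [List.nodup_append, nodup_part, mem_part, List.mem_append, List.mem_singleton,
      true_and]
    refine ⟨⟨⟨⟨⟨⟨⟨List.nodup_singleton _, ?_⟩, ?_⟩, ?_⟩, ?_⟩, ?_⟩, ?_⟩, ?_⟩ <;>
    · rintro a ⟨j, hj, rfl⟩ b hb hab
      simp only [← hab] at hb
      omega
  · intro k
    rw [hnm]
    simp only [List.mem_append, mem_part, List.mem_singleton]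
    refine or_congr (by simp) (or_congr Iff.rfl (or_congr Iff.rfl ?_))
    refine or_congr ?_ (or_congr ?_ (or_congr ?_ (or_congr ?_ Iff.rfl)))
    · constructor
      · rintro ⟨j, hj, rfl⟩
        obtain ⟨i, hi, l, hl, rfl⟩ := (split_mul _ _ _).1 hj
        exact ⟨i, by omega, l, hl, by unfold bV; ring⟩
      · rintro ⟨i, hi, l, hl, rfl⟩
        exact ⟨i * n + l, (split_mul _ _ _).2 ⟨i, by omega, l, hl, rfl⟩, by unfold bV; ring⟩
    · constructor
      · rintro ⟨j, hj, rfl⟩
        obtain ⟨it, hit, j', hj', rfl⟩ := (split_mul _ _ _).1 hj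
        obtain ⟨i, hi, t, ht, rfl⟩ := (split_mul _ _ _).1 hit
        exact ⟨i, by omega, t, ht, j', hj', by unfold nu bU; ring⟩
      · rintro ⟨i, hi, t, ht, j, hj, rfl⟩
        refine ⟨(i * T + t) * (2 * n + 7) + j, (split_mul _ _ _).2 ⟨i * T + t,
          (split_mul _ _ _).2 ⟨i, by omega, t, ht, rfl⟩, j, hj, rfl⟩, by unfold nu bU; ring⟩
    · constructor
      · rintro ⟨j, hj, rfl⟩
        exact ⟨j, by omega, rfl⟩
      · rintro ⟨j, hj, rfl⟩
        exact ⟨j, by omega, rfl⟩
    · constructor
      · rintro ⟨j, hj, rfl⟩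
        rcases Nat.eq_zero_or_pos j with h0 | h0
        · left; omega
        · by_cases h1 : j < 1 + n
          · right; left
            exact ⟨j - 1, by omega, by unfold bVt; omega⟩
          · right; right
            have h2 : j - (1 + n) < T * (2 * n + 7) := by omega
            obtain ⟨t, ht, j', hj', he⟩ := (split_mul _ _ _).1 h2
            refine ⟨t, ht, j', hj', ?_⟩
            have : j = (1 + n) + (t * (2 * n + 7) + j') := by omega
            rw [this]
            unfold nu bUt
            ring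
      · rintro (rfl | ⟨l, hl, rfl⟩ | ⟨t, ht, j, hj, rfl⟩)
        · exact ⟨0, by omega, by omega⟩
        · exact ⟨1 + l, by omega, by unfold bVt; omega⟩
        · have := (split_mul T (2 * n + 7) (t * (2 * n + 7) + j)).2 ⟨t, ht, j, hj, rfl⟩
          exact ⟨1 + n + (t * (2 * n + 7) + j), by omega, by unfold nu bUt; ring⟩

end Pool.Agent.Q47.IP
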