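import Pool.Agent.Q230.IP.St2

set_option autoImplicit false

/-!
# Project IP: the numerical inequalities
-/

namespace Pool.Agent.Q47.IP

open Pool.Agent.Q230.IP

theorem le2 (x : ℕ) : x ≤ 2 ^ x := Nat.lt_two_pow_self.le

theorem add_one_le2 {a b : ℕ} (h : a ≤ 2 ^ b) : a + 1 ≤ 2 ^ (b + 1) := by
  have : 1 ≤ 2 ^ b := Nat.one_le_two_pow
  rw [pow_succ]
  omega

theorem CB_le (n w C : ℕ) (hC : C ≤ 2 ^ w) : CB n (TT n) C ≤ 2 ^ c1 n w := by
  unfold CB c1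
  generalize LL n (TT n) = L
  generalize TT n = T
  have h1 : 1000 ≤ 2 ^ 10 := by norm_num
  have h2 : L ^ 3 ≤ 2 ^ (3 * L) := by
    rw [mul_comm, pow_mul]
    exact Nat.pow_le_pow_left (le2 L) 3
  have h3 : (n * T ^ n) ^ (2 * n + 8) ≤ 2 ^ ((n + T * n) * (2 * n + 8)) := by
    rw [pow_mul]
    refine Nat.pow_le_pow_left ?_ _
    rw [pow_add, pow_mul]
    exact Nat.mul_le_mul (le2 n) (Nat.pow_le_pow_left (le2 T) n)
  calc 1000 * L ^ 3 * (n * T ^ n) ^ (2 * n + 8) * C ≤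
      2 ^ 10 * 2 ^ (3 * L) * 2 ^ ((n + T * n) * (2 * n + 8)) * 2 ^ w :=
        Nat.mul_le_mul (Nat.mul_le_mul (Nat.mul_le_mul h1 h2) h3) hC
    _ = _ := by rw [← pow_add, ← pow_add, ← pow_add]

theorem AB_lt (n w C : ℕ) (hC : C ≤ 2 ^ w) :
    AB n C (2 ^ dl n) (2 ^ 2 ^ k0 n) < 2 ^ 2 ^ p0 n w := by
  have hCB := CB_le n w C hC
  unfold AB HB p0
  generalize CB n (TT n) C = cb at *
  generalize c1 n w = c at *
  generalize LL n (TT n) = L
  generalize dl n = d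
  generalize k0 n = k
  generalize (n + 2) ^ 2 = M
  have h1 : M * cb ≤ 2 ^ (M + c) := by
    rw [pow_add]
    exact Nat.mul_le_mul (le2 M) hCB
  have h2 : ((M * cb) ^ M) ^ ((L + 1) * 2 ^ d) ≤ 2 ^ ((M + c) * M * (L + 1) * 2 ^ d) := by
    rw [mul_assoc ((M + c) * M), pow_mul 2 ((M + c) * M), pow_mul 2 (M + c)]
    exact Nat.pow_le_pow_left (Nat.pow_le_pow_left h1 M) _
  have h3 : (2 ^ d) ^ (L + 1) = 2 ^ (d * (L + 1)) := by rw [← pow_mul]
  have h4 : 2 * 2 ^ 2 ^ k + 2 ≤ 2 ^ (2 + 2 ^ k) := by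
    have : 1 ≤ 2 ^ 2 ^ k := Nat.one_le_two_pow
    rw [pow_add]
    omega
  have h5 : (2 * 2 ^ 2 ^ k + 2) ^ 2 ^ d ≤ 2 ^ ((2 + 2 ^ k) * 2 ^ d) := by
    rw [pow_mul]
    exact Nat.pow_le_pow_left h4 _
  have h6 : (2 ^ d) ^ (L + 1) * ((2 ^ d) ^ (L + 1) * ((M * cb) ^ M) ^ ((L + 1) * 2 ^ d)) *
      (2 * 2 ^ 2 ^ k + 2) ^ 2 ^ d ≤
      2 ^ (2 * d * (L + 1) + (M + c) * M * (L + 1) * 2 ^ d + (2 + 2 ^ k) * 2 ^ d) := by
    rw [h3]
    calc _ ≤ 2 ^ (d * (L + 1)) * (2 ^ (d * (L + 1)) * 2 ^ ((M + c) * M * (L + 1) * 2 ^ d)) *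
        2 ^ ((2 + 2 ^ k) * 2 ^ d) :=
          Nat.mul_le_mul (Nat.mul_le_mul_left _ (Nat.mul_le_mul_left _ h2)) h5
      _ = _ := by
        rw [← pow_add, ← pow_add, ← pow_add]
        congr 1
        ring
  refine lt_of_le_of_lt (add_one_le2 h6) ?_
  refine Nat.pow_lt_pow_right (by norm_num) ?_
  set a := 2 * d * (L + 1) with ha
  set b := (M + c) * M * (L + 1) with hb
  have g1 : a ≤ 2 ^ (a + b + d + k + 2 + d) :=
    (le2 a).trans (Nat.pow_le_pow_right (by norm_num) (by omega))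
  have g2 : b * 2 ^ d ≤ 2 ^ (a + b + d + k + 2 + d) := by
    calc b * 2 ^ d ≤ 2 ^ b * 2 ^ d := Nat.mul_le_mul_right _ (le2 b)
      _ = 2 ^ (b + d) := by rw [pow_add]
      _ ≤ _ := Nat.pow_le_pow_right (by norm_num) (by omega)
  have g3 : (2 + 2 ^ k) * 2 ^ d ≤ 2 ^ (a + b + d + k + 2 + d) := by
    calc (2 + 2 ^ k) * 2 ^ d ≤ 2 ^ (k + 2) * 2 ^ d := by
          refine Nat.mul_le_mul_right _ ?_
          have : 1 ≤ 2 ^ k := Nat.one_le_two_pow
          rw [pow_add]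
          omega
      _ = 2 ^ (k + 2 + d) := by rw [pow_add 2 (k + 2)]
      _ ≤ _ := Nat.pow_le_pow_right (by norm_num) (by omega)
  have g4 : 2 ≤ 2 ^ (a + b + d + k + 2 + d) := by
    calc 2 = 2 ^ 1 := rfl
      _ ≤ _ := Nat.pow_le_pow_right (by norm_num) (by omega)
  have g5 : 2 ^ (a + b + d + k + 2 + d + 3) = 8 * 2 ^ (a + b + d + k + 2 + d) := by
    rw [pow_add]
    ring
  rw [g5]
  omega

theorem num : S_num := by
  intro n w C _ _ hC
  refine ⟨?_, ?_, ?_, ?_, ?_, ?_⟩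
  · unfold DB dl
    generalize LL n (TT n) = L
    set X := (L + 1) * ((n + 2) ^ 2 * (2 * n + 9) + 1) + 1
    rw [pow_add, pow_mul, pow_one]
    exact Nat.mul_le_mul_left _ (Nat.pow_le_pow_left (le2 X) L)
  · unfold k0
    generalize dl n = d
    set X := (n + 1) * TT n
    have h1 : X * 2 ^ d ≤ 2 ^ (X + d) := by
      rw [pow_add]
      exact Nat.mul_le_mul_right _ (le2 X)
    exact (add_one_le2 h1).trans (Nat.pow_le_pow_right (by norm_num) (le2 _))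
  · unfold gg
    generalize dl n = d
    generalize LL n (TT n) = L
    have h1 : 2 ^ d * L ≤ 2 ^ (d + L) := by
      rw [pow_add]
      exact Nat.mul_le_mul_left _ (le2 L)
    exact add_one_le2 h1
  · unfold ss zz
    exact one_le_pow₀ (by norm_num)
  · have := AB_lt n w C hC
    unfold ss zz
    rw [mul_zero, add_zero]
    exact_mod_cast this
  · intro i
    unfold ss zz
    rw [← pow_mul, ← pow_add]
    refine le_of_eq ?_
    congr 2
    ring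

end Pool.Agent.Q47.IP
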