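import Pool.Agent.Q230.IP.St2

set_option autoImplicit false

/-!
# Project IP: the reduction is computable in polynomial time
-/

namespace Pool.Agent.NPC.Q47IP

open Pool.Agent.NPC.ER Pool.Agent.NPC.H612 Pool.Agent.Q230.IP

section

variable {α : Type} [TEnc α]

theorem upow {n : α → ℕ} (hn : UPoly n) (k : ℕ) : UPoly (fun a => n a ^ k) := by
  have := hn.eval (Polynomial.X ^ k)
  simpa using this

theorem usucc {n : α → ℕ} (hn : UPoly n) : UPoly (fun a => n a + 1) := hn.add (UPoly.const 1)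

theorem cw0_eq (V : List ℕ) (c : Con) : cw0 V c =
    if c.code.1 = 0 then [(1, [V.idxOf c.code.2.1]), (-1, [])]
    else if c.code.1 = 1 then [(1, [V.idxOf c.code.2.1]), (1, [V.idxOf c.code.2.2.1]),
      (-1, [V.idxOf c.code.2.2.2])]
    else [(1, [V.idxOf c.code.2.1, V.idxOf c.code.2.2.1]),
      (-1, [V.idxOf c.code.2.2.2])] := by
  cases c <;> rfl

theorem poly_cw0 {V : α → List ℕ} {c : α → Con} (hV : Poly V) (hc : Poly c) :
    Poly (fun a => cw0 (V a) (c a)) := by
  simp only [cw0_eq]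
  have h0 := poly_con_code hc
  have i1 := poly_idxOf hV (Poly.fst (Poly.snd h0))
  have i2 := poly_idxOf hV (Poly.fst (Poly.snd (Poly.snd h0)))
  have i3 := poly_idxOf hV (Poly.snd (Poly.snd (Poly.snd h0)))
  have l1 := Poly.cons i1 (Poly.const [])
  have l2 := Poly.cons i2 (Poly.const [])
  have l3 := Poly.cons i3 (Poly.const [])
  refine Poly.ite (Poly.decide_eq (Poly.fst h0) (Poly.const 0))
    (Poly.cons (Poly.pair (Poly.const _) l1) (Poly.const _))
    (Poly.ite (Poly.decide_eq (Poly.fst h0) (Poly.const 1))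
      (Poly.cons (Poly.pair (Poly.const _) l1) (Poly.cons (Poly.pair (Poly.const _) l2)
        (Poly.cons (Poly.pair (Poly.const _) l3) (Poly.const []))))
      (Poly.cons (Poly.pair (Poly.const _) (Poly.cons i1 l2))
        (Poly.cons (Poly.pair (Poly.const _) l3) (Poly.const []))))

theorem poly_EL {E V : α → List ℕ} (hE : Poly E) (hV : Poly V) : Poly (fun a => EL (E a) (V a)) := by
  unfold EL
  exact Poly.filter (p := fun a j => isE (E a) ((V a).getD j 0)) (UPoly.length hV).range
    (poly_isE (hE.comp (Poly.fst Poly.id))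
      (Poly.getD (hV.comp (Poly.fst Poly.id)) (Poly.snd Poly.id) (Poly.const 0)))

theorem poly_gsys {V : α → List ℕ} {S : α → List Con} {m q : α → ℕ} (hV : Poly V) (hS : Poly S)
    (hm : UPoly m) (hq : UPoly q) : Poly (fun a => gsys (V a) (S a) (m a) (q a)) := by
  unfold gsys
  have hm' := hm.toPoly
  refine Poly.append (Poly.map (F := fun a c => cw0 (V a) c) hS
    (poly_cw0 (hV.comp (Poly.fst Poly.id)) (Poly.snd Poly.id))) (Poly.cons ?_ ?_)
  · refine Poly.append (Poly.cons (Poly.pair (Poly.const _) (Poly.cons hm' (Poly.const [])))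
      (Poly.const _)) (Poly.map (F := fun _ l => ((-1 : ℤ), [l, l])) hm.range ?_)
    exact Poly.pair (Poly.const _) (Poly.cons (Poly.snd Poly.id)
      (Poly.cons (Poly.snd Poly.id) (Poly.const [])))
  · refine Poly.map (F := fun a j => [((1 : ℤ), [m a + j + 1]), (-1, [m a + j, m a + j])])
      hq.range ?_
    have h1 : Poly (fun p : α × ℕ => m p.1 + p.2) :=
      Poly.add (hm'.comp (Poly.fst Poly.id)) (Poly.snd Poly.id)
    exact Poly.cons (Poly.pair (Poly.const _) (Poly.cons (Poly.succ h1) (Poly.const [])))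
      (Poly.cons (Poly.pair (Poly.const _) (Poly.cons h1 (Poly.cons h1 (Poly.const []))))
        (Poly.const []))

theorem u_C0 {n : α → ℕ} (hn : UPoly n) : UPoly (fun a => C0 (n a)) := by
  unfold C0
  exact (upow (usucc hn) 4).add (upow (hn.add (UPoly.const 3)) 2)

theorem u_QQ {n : α → ℕ} (hn : UPoly n) : UPoly (fun a => QQ (n a)) := by
  unfold QQ
  exact ((UPoly.const 7).add ((UPoly.const 7).mul hn)).add
    (((UPoly.const 17).add ((UPoly.const 16).mul hn)).mul (u_C0 hn))

theorem u_nn {n : α → ℕ} (hn : UPoly n) : UPoly (fun a => nn (n a)) := by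
  unfold nn
  exact usucc (hn.add (u_QQ hn))

theorem u_TT {n : α → ℕ} (hn : UPoly n) : UPoly (fun a => TT (n a)) := by
  unfold TT
  exact upow (usucc hn) 3

theorem u_LL {n T : α → ℕ} (hn : UPoly n) (hT : UPoly T) : UPoly (fun a => LL (n a) (T a)) := by
  unfold LL
  exact (UPoly.const 3).add (hn.add ((hT.mul (((UPoly.const 2).mul hn).add (UPoly.const 2))).add
    (hT.mul (hn.mul (usucc hn)))))

theorem u_dl {n : α → ℕ} (hn : UPoly n) : UPoly (fun a => dl (n a)) := by
  unfold dl
  have hL := u_LL hn (u_TT hn)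
  exact (UPoly.const 1).add ((usucc ((usucc hL).mul (usucc ((upow (hn.add (UPoly.const 2)) 2).mul
    (((UPoly.const 2).mul hn).add (UPoly.const 9)))))).mul hL)

theorem u_k0 {n : α → ℕ} (hn : UPoly n) : UPoly (fun a => k0 (n a)) := by
  unfold k0
  exact usucc (((usucc hn).mul (u_TT hn)).add (u_dl hn))

theorem u_gg {n : α → ℕ} (hn : UPoly n) : UPoly (fun a => gg (n a)) := by
  unfold gg
  exact usucc ((u_dl hn).add (u_LL hn (u_TT hn)))

theorem u_c1 {n w : α → ℕ} (hn : UPoly n) (hw : UPoly w) : UPoly (fun a => c1 (n a) (w a)) := by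
  unfold c1
  exact (((UPoly.const 10).add ((UPoly.const 3).mul (u_LL hn (u_TT hn)))).add
    ((hn.add ((u_TT hn).mul hn)).mul (((UPoly.const 2).mul hn).add (UPoly.const 8)))).add hw

theorem u_p0 {n w : α → ℕ} (hn : UPoly n) (hw : UPoly w) : UPoly (fun a => p0 (n a) (w a)) := by
  unfold p0
  have hL := usucc (u_LL hn (u_TT hn))
  have hn2 := upow (hn.add (UPoly.const 2)) 2
  exact ((((((((UPoly.const 2).mul (u_dl hn)).mul hL).add
    (((hn2.add (u_c1 hn hw)).mul hn2).mul hL)).add (u_dl hn)).add (u_k0 hn)).add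
    (UPoly.const 2)).add (u_dl hn)).add (UPoly.const 3)

theorem u_La {n w : α → ℕ} (hn : UPoly n) (hw : UPoly w) : UPoly (fun a => La (n a) (w a)) := by
  unfold La
  exact usucc (((u_p0 hn hw).add ((u_gg hn).mul (u_LL hn (u_TT hn)))).add (u_k0 hn))

theorem u_ww {S : α → List Con} (hS : Poly S) : UPoly (fun a => ww (S a)) := by
  unfold ww
  have hm : UPoly (fun a => (varsOf (S a)).length) := UPoly.length (poly_varsOf hS)
  exact (((UPoly.const 9).mul (UPoly.length hS)).add (upow (hm.add (UPoly.const 2)) 2)).add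
    ((UPoly.const 4).mul (u_QQ hm))

theorem poly_instQ (hqf : S_pqf) (hnm : S_pnm) {E : α → List ℕ} {S : α → List Con} (hE : Poly E)
    (hS : Poly S) : Poly (fun a => instQ (E a) (S a)) := by
  unfold instQ
  simp only
  have hV : Poly (fun a => varsOf (S a)) := poly_varsOf hS
  have hm : UPoly (fun a => (varsOf (S a)).length) := UPoly.length hV
  have hn := u_nn hm
  have hw := u_ww hS
  have hT := u_TT hn
  have hLa := u_La hn hw
  have hW := (hnm α _ _ _ (fun _ => []) (fun _ => []) hn hT hLa (Poly.const _) (Poly.const _)).1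
  exact hqf α _ _ _ _ _ _ _ _ _ _ hn hT hLa (u_p0 hn hw).toPoly (u_gg hn).toPoly
    (u_k0 hn).toPoly (hm.add (u_QQ hm)).toPoly hW (poly_EL hE hV) (poly_gsys hV hS hm (u_QQ hm))

end

theorem pin (hqf : S_pqf) (hnm : S_pnm) : S_pin := by
  unfold S_pin instI
  simp only
  have hS : Poly (fun p : List ℕ × Fm => sysOf (Fm.not p.2)) :=
    poly_sysOf (poly_fnot (Poly.snd Poly.id))
  have hV : Poly (fun p : List ℕ × Fm => varsOf (sysOf (Fm.not p.2))) := poly_varsOf hS
  have hm := UPoly.length hV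
  have hn := u_nn hm
  have hw := u_ww hS
  refine Poly.pair ?_ (poly_instQ hqf hnm (Poly.fst Poly.id) hS)
  exact UPoly.length (hnm _ _ _ _ (fun _ => []) (fun _ => []) hn (u_TT hn) (u_La hn hw)
    (Poly.const _) (Poly.const _)).1

end Pool.Agent.NPC.Q47IP
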