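import Pool.Agent.Q230.IP.St2

set_option autoImplicit false

/-!
# Project IP: values of the lists of terms
-/

namespace Pool.Agent.Q47.IP

open Pool.Agent.NPC Pool.Agent.NPC.ER Pool.Agent.NPC.H612 Pool.Agent.Q230.IP

/-! ### `wval` of the constructions -/

theorem wv_nil (ν : ℕ → ℝ) : wval ν [] = 0 := by simp [wval]

theorem wv_cons (ν : ℕ → ℝ) (c : ℤ) (l : List ℕ) (p : List (ℤ × List ℕ)) :
    wval ν ((c, l) :: p) = (c : ℝ) * (l.map ν).prod + wval ν p := by
  simp [wval]

theorem wv_append (ν : ℕ → ℝ) (p q : List (ℤ × List ℕ)) :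
    wval ν (p ++ q) = wval ν p + wval ν q := by
  simp [wval]

theorem wv_flatMap {α : Type} (ν : ℕ → ℝ) (l : List α) (f : α → List (ℤ × List ℕ)) :
    wval ν (l.flatMap f) = (l.map fun a => wval ν (f a)).sum := by
  induction l with
  | nil => simp [wval]
  | cons a l ih => rw [List.flatMap_cons, wv_append, ih]; simp

theorem wv_map {α : Type} (ν : ℕ → ℝ) (l : List α) (f : α → ℤ × List ℕ) :
    wval ν (l.map f) = (l.map fun a => ((f a).1 : ℝ) * ((f a).2.map ν).prod).sum := by
  induction l with
  | nil => simp [wval]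
  | cons a l ih => 
    rw [List.map_cons, List.map_cons, List.sum_cons, ← ih]
    simp [wval]

theorem sum_range_list (n : ℕ) (f : ℕ → ℝ) :
    ((List.range n).map f).sum = ∑ i : Fin n, f i := by
  rw [← Finset.sum_range]
  induction n with
  | zero => simp
  | succ n ih => rw [List.range_succ, List.map_append, List.sum_append, ih, Finset.sum_range_succ]; simp

theorem wv_range (ν : ℕ → ℝ) (n : ℕ) (f : ℕ → ℤ × List ℕ) :
    wval ν ((List.range n).map f) = ∑ i : Fin n, ((f i).1 : ℝ) * ((f i).2.map ν).prod := by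
  rw [wv_map, sum_range_list]

theorem wv_rangeF (ν : ℕ → ℝ) (n : ℕ) (f : ℕ → List (ℤ × List ℕ)) :
    wval ν ((List.range n).flatMap f) = ∑ i : Fin n, wval ν (f i) := by
  rw [wv_flatMap, sum_range_list]

theorem wv_mulL (ν : ℕ → ℝ) (p q : PolyData) : wval ν (mulL p q) = wval ν p * wval ν q := by
  unfold mulL
  induction p with
  | nil => simp [wval]
  | cons a p ih =>
    rw [List.flatMap_cons, wv_append]
    refine (congrArg (fun z => _ + z) ih).trans ?_
    obtain ⟨c, l⟩ := a
    rw [wv_cons, add_mul]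
    congr 1
    rw [wv_map]
    have : ∀ q : List (ℤ × List ℕ), (q.map fun b => (((c * b.1 : ℤ)) : ℝ) * ((l ++ b.2).map ν).prod).sum =
        (c : ℝ) * (l.map ν).prod * wval ν q := by
      intro q
      induction q with
      | nil => simp [wval]
      | cons b q ih2 =>
        rw [List.map_cons, List.sum_cons, ih2]
        obtain ⟨c', l'⟩ := b
        rw [wv_cons]
        rw [List.map_append, List.prod_append]
        push_cast
        ring
    exact this q

theorem wv_negL (ν : ℕ → ℝ) (p : PolyData) : wval ν (negL p) = - wval ν p := by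
  unfold negL
  induction p with
  | nil => simp [wval]
  | cons a p ih =>
    obtain ⟨c, l⟩ := a
    rw [List.map_cons]
    rw [wv_cons, wv_cons, ih]
    push_cast
    ring

theorem sL_prod {ν : ℕ → ℝ} {s : ℝ} {h : Bool} (h1 : h = true → ν 6 = s) (h2 : h = false → s = 1)
    (k : ℕ) : ((sL h k).map ν).prod = s ^ k := by
  unfold sL
  cases h with
  | false => simp [h2 rfl]
  | true => simp [h1 rfl]

/-! ### The polynomials -/

theorem aeval_toMv {n : ℕ} (v : Fin n → ℝ) (g : PolyData) :
    MvPolynomial.aeval v (toMv n g) = wval (xt v) g := by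
  unfold toMv
  induction g with
  | nil => simp [wval]
  | cons a g ih =>
    obtain ⟨c, l⟩ := a
    rw [List.map_cons, List.sum_cons, map_add, ih, wv_cons]
    congr 1
    rw [map_mul]
    congr 1
    · simp
    · induction l with
      | nil => simp
      | cons i l ih2 =>
        rw [List.map_cons, List.prod_cons, map_mul, ih2, List.map_cons, List.prod_cons]
        congr 1
        unfold xt
        split_ifs
        · simp
        · simp

theorem toMv_nil (n : ℕ) : toMv n [] = 0 := by simp [toMv]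

theorem toMv_cons (n : ℕ) (a : ℤ × List ℕ) (g : PolyData) : toMv n (a :: g) =
    MvPolynomial.C a.1 *
    (a.2.map fun i => if h : i < n then MvPolynomial.X ⟨i, h⟩ else 0).prod + toMv n g := by
  simp [toMv]

theorem toMv_append (n : ℕ) (p q : PolyData) : toMv n (p ++ q) = toMv n p + toMv n q := by
  simp [toMv]

theorem pderiv_toMv {n : ℕ} (l : Fin n) (g : PolyData)
    (hg : ∀ a ∈ g, a.2.length ≤ 2 ∧ ∀ i ∈ a.2, i < n) :
    MvPolynomial.pderiv l (toMv n g) = toMv n (pdL l g) := by
  classical
  induction g with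
  | nil => simp [toMv, pdL]
  | cons a g ih =>
    have h1 : pdL l (a :: g) = ((if a.2.length = 1 ∧ a.2.getD 0 0 = (l : ℕ) then [(a.1, [])] else []) ++
    ((if a.2.length = 2 ∧ a.2.getD 0 0 = (l : ℕ) then [(a.1, [a.2.getD 1 0])] else []) ++
     (if a.2.length = 2 ∧ a.2.getD 1 0 = (l : ℕ) then [(a.1, [a.2.getD 0 0])] else []))) ++ pdL l g := by
      unfold pdL
      rw [List.flatMap_cons]
    rw [h1, toMv_append, toMv_cons, map_add, ih fun b hb => hg b (List.mem_cons_of_mem _ hb)]
    congr 1
    obtain ⟨h2, h3⟩ := hg a List.mem_cons_self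
    obtain ⟨c, L⟩ := a
    match L, h2, h3 with
    | [], _, _ => simp [toMv]
    | [i], _, h3 =>
      have hi : i < n := h3 i (by simp)
      by_cases hil : i = (l : ℕ)
      · subst hil
        simp [toMv]
      · have : (⟨i, hi⟩ : Fin n) ≠ l := fun h => hil (by rw [← h])
        simp [toMv, hi, hil, MvPolynomial.pderiv_X_of_ne this]
    | [i, j], _, h3 =>
      have hi : i < n := h3 i (by simp)
      have hj : j < n := h3 j (by simp)
      by_cases hil : i = (l : ℕ)
      · by_cases hjl : j = (l : ℕ)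
        · subst hil
          subst hjl
          simp [toMv]
          ring
        · have h5 : (⟨j, hj⟩ : Fin n) ≠ l := fun h => hjl (by rw [← h])
          subst hil
          simp [toMv, hj, hjl, MvPolynomial.pderiv_X_of_ne h5]
          try ring
      · have h4 : (⟨i, hi⟩ : Fin n) ≠ l := fun h => hil (by rw [← h])
        by_cases hjl : j = (l : ℕ)
        · subst hjl
          simp [toMv, hi, hil, MvPolynomial.pderiv_X_of_ne h4]
          try ring
        · have h5 : (⟨j, hj⟩ : Fin n) ≠ l := fun h => hjl (by rw [← h])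
          simp [toMv, hi, hil, hj, hjl, MvPolynomial.pderiv_X_of_ne h4, MvPolynomial.pderiv_X_of_ne h5]
    | i :: j :: k :: L, h2, _ => simp at h2

/-! ### The values -/

variable {n T : ℕ} {el : List ℕ} {gs : List PolyData} {ν : ℕ → ℝ} {cv cu : ℕ} {s : ℝ}
  {v x : Fin n → ℝ} {h : Bool}

theorem wv_homL (hg : ∀ l : Fin n, ν (cv + 8 * (l : ℕ)) = s * v l) (h1 : h = true → ν 6 = s)
    (h2 : h = false → s = 1) (g : PolyData) (hgs : ∀ a ∈ g, a.2.length ≤ 2 ∧ ∀ i ∈ a.2, i < n) :
    wval ν (homL h cv g) = s ^ 2 * wval (xt v) g := by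
  unfold homL
  induction g with
  | nil => simp [wval]
  | cons a g ih =>
    obtain ⟨c, L⟩ := a
    rw [List.map_cons, wv_cons, ih fun b hb => hgs b (List.mem_cons_of_mem _ hb), wv_cons, mul_add]
    congr 1
    obtain ⟨h3, h4⟩ := hgs (c, L) List.mem_cons_self
    rw [List.map_append, List.prod_append, sL_prod h1 h2]
    have h5 : ((L.map fun i => cv + 8 * i).map ν).prod = s ^ L.length * (L.map (xt v)).prod := by
      clear h3 hgs ih
      induction L with
      | nil => simp
      | cons i L ih =>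
        rw [List.map_cons, List.map_cons, List.prod_cons, List.length_cons, List.map_cons,
          List.prod_cons, ih fun j hj => h4 j (List.mem_cons_of_mem _ hj)]
        have hi : i < n := h4 i List.mem_cons_self
        have := hg ⟨i, hi⟩
        simp only at this
        rw [this]
        unfold xt
        rw [dif_pos hi]
        ring
    rw [h5]
    have h6 : s ^ 2 = s ^ L.length * s ^ (2 - L.length) := by
      rw [← pow_add]
      congr 1
      simp only at h3
      omega
    simp only
    rw [h6]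
    ring

theorem sum_el (he : el.Nodup) (hel : ∀ l ∈ el, l < n) (f : ℕ → ℝ) :
    (el.map f).sum = ∑ l : Fin n, if (l : ℕ) ∈ el then f l else 0 := by
  classical
  rw [← Finset.sum_range (n := n) (f := fun l => if l ∈ el then f l else 0)]
  rw [← Finset.sum_filter]
  rw [← List.sum_toFinset f he]
  refine Finset.sum_congr ?_ fun _ _ => rfl
  ext l
  simp only [List.mem_toFinset, Finset.mem_filter, Finset.mem_range]
  exact ⟨fun h => ⟨hel l h, h⟩, fun h => h.2⟩

theorem mkP_eval (o : Fin n) (v : Fin n → ℝ) :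
    MvPolynomial.aeval v (mkDat n el o gs).P = (gs.map fun g => (wval (xt v) g) ^ 2).sum := by
  unfold mkDat
  simp only
  induction gs with
  | nil => simp
  | cons g gs ih =>
    rw [List.map_cons, List.sum_cons, map_add, ih, List.map_cons, List.sum_cons, map_pow,
      aeval_toMv]

theorem wv_phiL (o : Fin n) (hG : Good n el gs) (hx : ∀ l : Fin n, ν (8 * (l : ℕ) + 2) = x l)
    (hg : ∀ l : Fin n, ν (cv + 8 * (l : ℕ)) = s * v l) (h1 : h = true → ν 6 = s)
    (h2 : h = false → s = 1) :
    wval ν (phiL el gs h cv) = s ^ 4 * (mkDat n el o gs).Phi x v := by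
  obtain ⟨g1, g2, g3⟩ := hG
  unfold phiL Dat.Phi
  rw [wv_append, mul_add]
  congr 1
  · rw [wv_flatMap, sum_el g1 g2, Finset.mul_sum]
    refine Finset.sum_congr rfl fun l _ => ?_
    have hE : (mkDat n el o gs).E l = decide ((l : ℕ) ∈ el) := rfl
    rw [hE]
    by_cases hl : (l : ℕ) ∈ el
    · simp only [hl, if_true, decide_true]
      rw [wv_cons, wv_cons, wv_cons, wv_nil]
      simp only [List.map_append, List.prod_append, sL_prod h1 h2, List.map_cons, List.prod_cons,
        List.map_nil, List.prod_nil, hg, hx]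
      push_cast
      ring
    · simp [hl]
  · rw [wv_flatMap, mkP_eval]
    clear g1 g2
    induction gs with
    | nil => simp
    | cons g gs ih =>
      rw [List.map_cons, List.sum_cons, List.map_cons, List.sum_cons, mul_add,
        ih fun g' hg' => g3 g' (List.mem_cons_of_mem _ hg')]
      congr 1
      rw [wv_mulL, wv_homL hg h1 h2 g (g3 g List.mem_cons_self)]
      ring

theorem evF : S_evF := by
  intro n T el gs o h cv cu ν s p x v hG hPX hN h1 h2
  obtain ⟨hP, hx⟩ := hPX
  obtain ⟨hg, hu⟩ := hN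
  have e9 : ν 9 = p (Sum.inl 1) := hP (Sum.inl 1)
  have e17 : ν 17 = p (Sum.inl 2) := hP (Sum.inl 2)
  have e1 : ν 1 = p (Sum.inl 0) := hP (Sum.inl 0)
  unfold FL Dat.FF Dat.F0
  rw [wv_append, wv_mulL, wv_phiL o hG hx hg h1 h2]
  simp only [wv_append, wv_range, wv_rangeF]
  rw [Fintype.sum_sum_type, Fintype.sum_sum_type, Fintype.sum_prod_type, Fintype.sum_prod_type]
  have q1 : wval ν [((1 : ℤ), [9] ++ sL h 2), (1, [9, cv + 8 * (o : ℕ), cv + 8 * (o : ℕ)])] =
      s ^ 2 * (p (Sum.inl 1) * (1 + v o ^ 2)) := by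
    rw [wv_cons, wv_cons, wv_nil]
    simp only [List.map_append, List.prod_append, sL_prod h1 h2, List.map_cons, List.prod_cons,
      List.map_nil, List.prod_nil, hg, e9]
    push_cast
    ring
  rw [q1]
  have q2 : ∑ t : Fin T, (((1 : ℤ) : ℤ) : ℝ) *
      (([17, nu n cu (t : ℕ) (2 * n + 6)] ++ sL h 5).map ν).prod =
      s ^ 6 * (p (Sum.inl 2) * ∑ t : Fin T, uu (t : ℕ) v ^ (2 * n + 6)) := by
    rw [Finset.mul_sum, Finset.mul_sum]
    refine Finset.sum_congr rfl fun t _ => ?_
    simp only [List.map_append, List.prod_append, sL_prod h1 h2, List.map_cons, List.prod_cons,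
      List.map_nil, List.prod_nil, e17, hu t t.2 (2 * n + 6) (by omega)]
    push_cast
    ring
  have q3 : ∑ l : Fin n, (((-1 : ℤ) : ℤ) : ℝ) *
      (([1, 8 * (l : ℕ) + 2, 8 * (l : ℕ) + 2, 8 * (l : ℕ) + 2, 8 * (l : ℕ) + 2] ++ sL h 6).map ν).prod =
      - (s ^ 6 * (p (Sum.inl 0) * ∑ l : Fin n, x l ^ 4)) := by
    rw [Finset.mul_sum, Finset.mul_sum, ← Finset.sum_neg_distrib]
    refine Finset.sum_congr rfl fun l _ => ?_
    simp only [List.map_append, List.prod_append, sL_prod h1 h2, List.map_cons, List.prod_cons,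
      List.map_nil, List.prod_nil, e1, hx]
    push_cast
    ring
  have q4 : ∑ l : Fin n, (((1 : ℤ) : ℤ) : ℝ) *
      (([8 * (3 + (l : ℕ)) + 1, 8 * (l : ℕ) + 2] ++ sL h 6).map ν).prod =
      s ^ 6 * ∑ l : Fin n, p (Sum.inr (Sum.inl l)) * bas x v (Sum.inl l : PI n T) := by
    rw [Finset.mul_sum]
    refine Finset.sum_congr rfl fun l _ => ?_
    have := hP (Sum.inr (Sum.inl l))
    simp only [pos] at this
    simp only [List.map_append, List.prod_append, sL_prod h1 h2, List.map_cons, List.prod_cons,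
      List.map_nil, List.prod_nil, this, hx, bas]
    push_cast
    ring
  have q5 : ∑ t : Fin T, ∑ j : Fin (2 * n + 2), (((1 : ℤ) : ℤ) : ℝ) *
      (([8 * (3 + n + ((t : ℕ) * (2 * n + 2) + (j : ℕ))) + 1, nu n cu (t : ℕ) (j : ℕ)] ++ sL h 5).map ν).prod =
      s ^ 6 * ∑ t : Fin T, ∑ j : Fin (2 * n + 2), p (Sum.inr (Sum.inr (Sum.inl (t, j)))) *
        bas x v (Sum.inr (Sum.inl (t, j)) : PI n T) := by
    rw [Finset.mul_sum]
    refine Finset.sum_congr rfl fun t _ => ?_
    rw [Finset.mul_sum]
    refine Finset.sum_congr rfl fun j _ => ?_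
    have := hP (Sum.inr (Sum.inr (Sum.inl (t, j))))
    simp only [pos] at this
    simp only [List.map_append, List.prod_append, sL_prod h1 h2, List.map_cons, List.prod_cons,
      List.map_nil, List.prod_nil, this, bas, hu t t.2 j (by have := j.2; omega)]
    push_cast
    ring
  have q6 : ∑ t : Fin T, ∑ l : Fin n, ∑ j : Fin (n + 1), (((1 : ℤ) : ℤ) : ℝ) *
      (([8 * (3 + n + T * (2 * n + 2) + (((t : ℕ) * n + (l : ℕ)) * (n + 1) + (j : ℕ))) + 1,
        nu n cu (t : ℕ) (j : ℕ), cv + 8 * (l : ℕ)] ++ sL h 4).map ν).prod =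
      s ^ 6 * ∑ t : Fin T, ∑ q : Fin n × Fin (n + 1), p (Sum.inr (Sum.inr (Sum.inr (t, q)))) *
        bas x v (Sum.inr (Sum.inr (t, q)) : PI n T) := by
    rw [Finset.mul_sum]
    refine Finset.sum_congr rfl fun t _ => ?_
    rw [Fintype.sum_prod_type, Finset.mul_sum]
    refine Finset.sum_congr rfl fun l _ => ?_
    rw [Finset.mul_sum]
    refine Finset.sum_congr rfl fun j _ => ?_
    have := hP (Sum.inr (Sum.inr (Sum.inr (t, (l, j)))))
    simp only [pos] at this
    simp only [List.map_append, List.prod_append, sL_prod h1 h2, List.map_cons, List.prod_cons,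
      List.map_nil, List.prod_nil, this, bas, hu t t.2 j (by have := j.2; omega), hg]
    push_cast
    ring
  rw [q2, q3, q4, q5, q6]
  have ho : (mkDat n el o gs).o = o := rfl
  rw [ho]
  ring

theorem evX : S_evX := by
  intro n T el gs o cv cu ν p x v hG hPX hN l
  obtain ⟨hP, hx⟩ := hPX
  obtain ⟨hg, hu⟩ := hN
  have e9 : ν 9 = p (Sum.inl 1) := hP (Sum.inl 1)
  have e1 : ν 1 = p (Sum.inl 0) := hP (Sum.inl 0)
  have el1 := hP (Sum.inr (Sum.inl l))
  simp only [pos] at el1
  unfold dxL Dat.FFX Dat.F0X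
  rw [wv_append]
  have q1 : ∑ i : PI n T, p (Sum.inr i) * basX l i = p (Sum.inr (Sum.inl l)) := by
    rw [Fintype.sum_sum_type]
    simp [basX]
  rw [q1]
  have ho : (mkDat n el o gs).o = o := rfl
  have hE : (mkDat n el o gs).E l = decide ((l : ℕ) ∈ el) := rfl
  rw [ho, hE]
  have q2 : wval ν [((-4 : ℤ), [1, 8 * (l : ℕ) + 2, 8 * (l : ℕ) + 2, 8 * (l : ℕ) + 2]),
      (1, [8 * (3 + (l : ℕ)) + 1])] = - 4 * p (Sum.inl 0) * x l ^ 3 + p (Sum.inr (Sum.inl l)) := by
    rw [wv_cons, wv_cons, wv_nil]
    simp only [List.map_cons, List.prod_cons, List.map_nil, List.prod_nil, e1, hx, el1]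
    push_cast
    ring
  rw [q2]
  by_cases hl : (l : ℕ) ∈ el
  · simp only [hl, if_true, decide_true]
    rw [wv_mulL, wv_cons, wv_cons, wv_nil, wv_cons, wv_cons, wv_nil]
    simp only [List.map_cons, List.prod_cons, List.map_nil, List.prod_nil, e9, hx, hg]
    push_cast
    ring
  · simp only [hl, if_false, decide_false]
    rw [wv_nil]
    simp

theorem wv_phiD (o : Fin n) (hG : Good n el gs) (hx : ∀ l : Fin n, ν (8 * (l : ℕ) + 2) = x l)
    (hg : ∀ l : Fin n, ν (cv + 8 * (l : ℕ)) = 1 * v l) (l : Fin n) :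
    wval ν (phiD el gs cv l) = (mkDat n el o gs).PhiV l x v := by
  obtain ⟨g1, g2, g3⟩ := hG
  have h1 : false = true → ν 6 = (1 : ℝ) := fun h => by simp at h
  have h2 : false = false → (1 : ℝ) = 1 := fun _ => rfl
  unfold phiD Dat.PhiV
  have hE : (mkDat n el o gs).E l = decide ((l : ℕ) ∈ el) := rfl
  rw [wv_append, hE]
  congr 1
  · by_cases hl : (l : ℕ) ∈ el
    · simp only [hl, if_true, decide_true]
      rw [wv_cons, wv_cons, wv_nil]
      simp only [List.map_cons, List.prod_cons, List.map_nil, List.prod_nil, hg, hx]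
      push_cast
      ring
    · simp [hl, wval]
  · rw [wv_flatMap]
    have hP : (mkDat n el o gs).P = (gs.map fun g => toMv n g ^ 2).sum := rfl
    rw [hP]
    clear g1 g2 hP hE
    induction gs with
    | nil => simp
    | cons g gs ih =>
      rw [List.map_cons, List.sum_cons, List.map_cons, List.sum_cons, map_add, map_add,
        ih fun g' hg' => g3 g' (List.mem_cons_of_mem _ hg')]
      congr 1
      have h3 := g3 g List.mem_cons_self
      have h4 : ∀ a ∈ pdL l g, a.2.length ≤ 2 ∧ ∀ i ∈ a.2, i < n := by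
        intro a ha
        unfold pdL at ha
        rw [List.mem_flatMap] at ha
        obtain ⟨b, hb, hab⟩ := ha
        obtain ⟨h5, h6⟩ := h3 b hb
        rw [List.mem_append, List.mem_append] at hab
        rcases hab with hab | hab | hab
        · split_ifs at hab with h7
          · rw [List.mem_singleton] at hab
            subst hab
            simp
          · simp at hab
        · split_ifs at hab with h7
          · rw [List.mem_singleton] at hab
            subst hab
            refine ⟨by simp, fun i hi => ?_⟩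
            rw [List.mem_singleton] at hi
            subst hi
            refine h6 _ ?_
            have : 1 < b.2.length := by omega
            rw [List.getD_eq_getElem _ _ this]
            exact List.getElem_mem this
          · simp at hab
        · split_ifs at hab with h7
          · rw [List.mem_singleton] at hab
            subst hab
            refine ⟨by simp, fun i hi => ?_⟩
            rw [List.mem_singleton] at hi
            subst hi
            refine h6 _ ?_
            have : 0 < b.2.length := by omega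
            rw [List.getD_eq_getElem _ _ this]
            exact List.getElem_mem this
          · simp at hab
      rw [wv_mulL, wv_mulL, wv_homL hg h1 h2 g h3, wv_homL hg h1 h2 _ h4, pow_two (toMv n g),
        MvPolynomial.pderiv_mul, map_add, map_mul, map_mul, pderiv_toMv l g h3, aeval_toMv,
        aeval_toMv, wv_cons, wv_nil]
      simp
      ring

theorem evV : S_evV := by
  intro n T el gs o cv cu ν p x v hG hPX hN l
  obtain ⟨hP, hx⟩ := hPX
  obtain ⟨hg, hu⟩ := hN
  have h1 : false = true → ν 6 = (1 : ℝ) := fun h => by simp at h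
  have h2 : false = false → (1 : ℝ) = 1 := fun _ => rfl
  have e9 : ν 9 = p (Sum.inl 1) := hP (Sum.inl 1)
  have e17 : ν 17 = p (Sum.inl 2) := hP (Sum.inl 2)
  have hmin : min (l : ℕ) n = l := min_eq_left l.2.le
  unfold dvL Dat.FFV Dat.F0V
  simp only [wv_append, wv_range, wv_rangeF, hmin]
  rw [wv_mulL, wv_phiD o hG hx hg l]
  rw [Fintype.sum_sum_type, Fintype.sum_sum_type, Fintype.sum_prod_type, Fintype.sum_prod_type]
  have ho : (mkDat n el o gs).o = o := rfl
  rw [ho]
  have q0 : wval ν (if (l : ℕ) = (o : ℕ) then mulL [((2 : ℤ), [9, cv + 8 * (o : ℕ)])]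
      (phiL el gs false cv) else []) =
      p (Sum.inl 1) * (if l = o then 2 * v o * (mkDat n el o gs).Phi x v else 0) := by
    by_cases hlo : l = o
    · subst hlo
      rw [if_pos rfl, if_pos rfl, wv_mulL, wv_phiL l hG hx hg h1 h2, wv_cons, wv_nil]
      simp only [List.map_cons, List.prod_cons, List.map_nil, List.prod_nil, hg, e9]
      push_cast
      ring
    · rw [if_neg hlo, if_neg fun h => hlo (Fin.ext h), wv_nil, mul_zero]
  have q1 : wval ν [((1 : ℤ), [9]), (1, [9, cv + 8 * (o : ℕ), cv + 8 * (o : ℕ)])] =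
      (p (Sum.inl 1) * (1 + v o ^ 2)) := by
    rw [wv_cons, wv_cons, wv_nil]
    simp only [List.map_cons, List.prod_cons, List.map_nil, List.prod_nil, hg, e9]
    push_cast
    ring
  have q2 : ∑ t : Fin T, (((((2 * n + 6) * (t : ℕ) ^ (l : ℕ) : ℕ) : ℤ)) : ℝ) *
      (([17, nu n cu (t : ℕ) (2 * n + 5)]).map ν).prod =
      p (Sum.inl 2) * ∑ t : Fin T, ((2 * n + 6 : ℕ) : ℝ) * ((t : ℕ) : ℝ) ^ (l : ℕ) * uu (t : ℕ) v ^ (2 * n + 5) := by
    rw [Finset.mul_sum]
    refine Finset.sum_congr rfl fun t _ => ?_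
    simp only [List.map_cons, List.prod_cons,
      List.map_nil, List.prod_nil, e17, hu t t.2 (2 * n + 5) (by omega)]
    push_cast
    ring
  have q4 : ∑ l' : Fin n, p (Sum.inr (Sum.inl l')) * basV l v (Sum.inl l' : PI n T) = 0 := by
    simp [basV]
  have q5 : ∑ t : Fin T, ∑ j : Fin (2 * n + 2), (((((j : ℕ) * (t : ℕ) ^ (l : ℕ) : ℕ) : ℤ)) : ℝ) *
      (([8 * (3 + n + ((t : ℕ) * (2 * n + 2) + (j : ℕ))) + 1, nu n cu (t : ℕ) ((j : ℕ) - 1)]).map ν).prod =
      ∑ t : Fin T, ∑ j : Fin (2 * n + 2), p (Sum.inr (Sum.inr (Sum.inl (t, j)))) *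
        basV l v (Sum.inr (Sum.inl (t, j)) : PI n T) := by
    refine Finset.sum_congr rfl fun t _ => ?_
    refine Finset.sum_congr rfl fun j _ => ?_
    have := hP (Sum.inr (Sum.inr (Sum.inl (t, j))))
    simp only [pos] at this
    simp only [List.map_cons, List.prod_cons,
      List.map_nil, List.prod_nil, this, basV, hu t t.2 ((j : ℕ) - 1) (by have := j.2; omega)]
    push_cast
    ring
  have q6 : (∑ t : Fin T, ∑ l' : Fin n, ∑ j : Fin (n + 1), (((((j : ℕ) * (t : ℕ) ^ (l : ℕ) : ℕ) : ℤ)) : ℝ) *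
      (([8 * (3 + n + T * (2 * n + 2) + (((t : ℕ) * n + (l' : ℕ)) * (n + 1) + (j : ℕ))) + 1,
        nu n cu (t : ℕ) ((j : ℕ) - 1), cv + 8 * (l' : ℕ)]).map ν).prod) +
      (∑ t : Fin T, ∑ j : Fin (n + 1), (((1 : ℤ) : ℤ) : ℝ) *
      (([8 * (3 + n + T * (2 * n + 2) + (((t : ℕ) * n + (l : ℕ)) * (n + 1) + (j : ℕ))) + 1,
        nu n cu (t : ℕ) (j : ℕ)]).map ν).prod) =
      ∑ t : Fin T, ∑ q : Fin n × Fin (n + 1), p (Sum.inr (Sum.inr (Sum.inr (t, q)))) *
        basV l v (Sum.inr (Sum.inr (t, q)) : PI n T) := by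
    rw [← Finset.sum_add_distrib]
    refine Finset.sum_congr rfl fun t _ => ?_
    rw [Fintype.sum_prod_type]
    have r1 : ∀ l' : Fin n, ∑ j : Fin (n + 1), p (Sum.inr (Sum.inr (Sum.inr (t, (l', j))))) *
        basV l v (Sum.inr (Sum.inr (t, (l', j))) : PI n T) =
        (∑ j : Fin (n + 1), (((((j : ℕ) * (t : ℕ) ^ (l : ℕ) : ℕ) : ℤ)) : ℝ) *
      (([8 * (3 + n + T * (2 * n + 2) + (((t : ℕ) * n + (l' : ℕ)) * (n + 1) + (j : ℕ))) + 1,
        nu n cu (t : ℕ) ((j : ℕ) - 1), cv + 8 * (l' : ℕ)]).map ν).prod) +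
        if l' = l then (∑ j : Fin (n + 1), (((1 : ℤ) : ℤ) : ℝ) *
      (([8 * (3 + n + T * (2 * n + 2) + (((t : ℕ) * n + (l : ℕ)) * (n + 1) + (j : ℕ))) + 1,
        nu n cu (t : ℕ) (j : ℕ)]).map ν).prod) else 0 := by
      intro l'
      by_cases hl : l' = l
      · subst hl
        rw [if_pos rfl, ← Finset.sum_add_distrib]
        refine Finset.sum_congr rfl fun j _ => ?_
        have := hP (Sum.inr (Sum.inr (Sum.inr (t, (l', j)))))
        simp only [pos] at this
        simp only [List.map_cons, List.prod_cons,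
          List.map_nil, List.prod_nil, this, basV, hu t t.2 ((j : ℕ) - 1) (by have := j.2; omega),
          hu t t.2 j (by have := j.2; omega), hg, if_true]
        push_cast
        ring
      · rw [if_neg hl, add_zero]
        refine Finset.sum_congr rfl fun j _ => ?_
        have := hP (Sum.inr (Sum.inr (Sum.inr (t, (l', j)))))
        simp only [pos] at this
        simp only [List.map_cons, List.prod_cons,
          List.map_nil, List.prod_nil, this, basV, hu t t.2 ((j : ℕ) - 1) (by have := j.2; omega),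
          hg, if_neg hl]
        push_cast
        ring
    rw [Finset.sum_congr rfl fun l' _ => r1 l', Finset.sum_add_distrib]
    congr 1
    rw [Finset.sum_ite_eq' Finset.univ l]
    simp
  rw [q0, q1, q2, q4, q5, ← q6]
  ring

end Pool.Agent.Q47.IP
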