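import Pool.Agent.Q47.IP.POS
import Pool.Agent.Q47.IP.EV

set_option autoImplicit false

/-!
# Project IP: the equations of the chain and of the powers
-/

namespace Pool.Agent.Q47.IP

open Pool.Agent.NPC Pool.Agent.NPC.ER Pool.Agent.NPC.H612 Pool.Agent.Q230.IP

theorem wval_ren (W : List ℕ) (f : Fin W.length → ℝ) (p : PolyData) :
    wval (xt f) (ren W p) = wval (env W f) p := by
  unfold ren
  induction p with
  | nil => simp [wval]
  | cons a p ih =>
    obtain ⟨c, L⟩ := a
    rw [List.map_cons, wv_cons, ih, wv_cons, List.map_map]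
    rfl

theorem val_eqW (W : List ℕ) (f : Fin W.length → ℝ) (p : PolyData) :
    (eqW W p).Val (wval (xt f)) ↔ wval (env W f) p = 0 := by
  unfold eqW
  rw [QF.Val, wval_ren]

theorem wv_one (ν : ℕ → ℝ) (c : ℤ) (l : List ℕ) : wval ν [(c, l)] = (c : ℝ) * (l.map ν).prod := by
  rw [wv_cons, wv_nil, add_zero]

theorem zz_pos (j : ℕ) : 0 < zz j := by unfold zz; positivity

theorem zz_succ (j : ℕ) : zz (j + 1) = zz j * zz j := by
  unfold zz
  rw [← pow_add, pow_succ]
  congr 1
  ring

theorem pos_eq_one {n T : ℕ} (i : Par n T) : pos n T i = 1 ↔ i = Sum.inl 1 := by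
  constructor
  · intro h
    exact pos_inj n T (h.trans rfl)
  · rintro rfl
    rfl

theorem chq : S_chq := by
  intro W f n T La p g hLa hp
  unfold chainQ
  simp only [List.mem_cons, List.mem_append, List.mem_map, List.mem_range, forall_eq_or_imp]
  constructor
  · rintro ⟨h0, h1⟩
    rw [val_eqW, wv_cons, wv_one] at h0
    simp at h0
    have hc : ∀ j < La, env W f (8 * j) = zz j := by
      intro j
      induction j with
      | zero =>
        intro _
        have : zz 0 = 2 := by unfold zz; norm_num
        rw [this]
        linarith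
      | succ j ih =>
        intro hj
        have h2 := h1 _ (Or.inl ⟨j, by omega, rfl⟩)
        rw [val_eqW, wv_cons, wv_one] at h2
        simp at h2
        rw [ih (by omega)] at h2
        rw [zz_succ]
        linarith
    refine ⟨hc, fun i => ?_⟩
    have hi := pos_lt n T i
    have h2 := h1 _ (Or.inr ⟨_, hi, rfl⟩)
    have h3 := hc _ (hp _ hi)
    unfold pv
    by_cases h4 : i = Sum.inl 1
    · rw [if_pos h4]
      rw [if_pos ((pos_eq_one i).2 h4), val_eqW, wv_cons, wv_one] at h2
      simp at h2
      rw [h3] at h2
      linarith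
    · rw [if_neg h4]
      rw [if_neg fun h => h4 ((pos_eq_one i).1 h), val_eqW, wv_cons, wv_one] at h2
      simp at h2
      rw [h3] at h2
      exact eq_inv_of_mul_eq_one_left (by linarith)
  · rintro ⟨hc, hi⟩
    refine ⟨?_, ?_⟩
    · rw [val_eqW, wv_cons, wv_one]
      have := hc 0 (by omega)
      have h0 : zz 0 = 2 := by unfold zz; norm_num
      simp at this
      simp [this, h0]
    · rintro φ (⟨j, hj, rfl⟩ | ⟨j, hj, rfl⟩)
      · rw [val_eqW, wv_cons, wv_one]
        have h1 := hc j (by omega)
        have h2 := hc (j + 1) (by omega)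
        simp only [List.map_cons, List.prod_cons, List.map_nil, List.prod_nil, h1, h2, zz_succ]
        push_cast
        ring
      · obtain ⟨i, rfl⟩ := exists_pos hj
        have h2 := hi i
        have h3 := hc _ (hp _ hj)
        unfold pv at h2
        by_cases h4 : i = Sum.inl 1
        · rw [if_pos h4] at h2
          rw [if_pos ((pos_eq_one i).2 h4), val_eqW, wv_cons, wv_one]
          simp only [List.map_cons, List.prod_cons, List.map_nil, List.prod_nil, h2, h3]
          push_cast
          ring
        · rw [if_neg h4] at h2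
          rw [if_neg fun h => h4 ((pos_eq_one i).1 h), val_eqW, wv_cons, wv_one]
          have := (zz_pos (p + g * pos n T i)).ne'
          simp only [List.map_cons, List.prod_cons, List.map_nil, List.prod_nil, h2, h3]
          push_cast
          field_simp
          ring

theorem pwq : S_pwq := by
  intro W f n T h cv cu s hs h1 h2
  unfold powQ
  simp only [List.mem_flatMap, List.mem_cons, List.mem_map, List.mem_range]
  set ν := env W f with hν
  set v : Fin n → ℝ := fun l => ν (cv + 8 * (l : ℕ)) / s with hv
  have hl : ∀ l : Fin n, ν (cv + 8 * (l : ℕ)) = s * v l := by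
    intro l
    rw [hv]
    field_simp
  have hsum : ∀ t j : ℕ, wval ν ((List.range n).map fun l =>
      (-((t ^ min l n : ℕ) : ℤ), [nu n cu t j, cv + 8 * l])) = - (ν (nu n cu t j) * (s * uu t v)) := by
    intro t j
    rw [wv_range]
    unfold uu
    rw [Finset.mul_sum, Finset.mul_sum, ← Finset.sum_neg_distrib]
    refine Finset.sum_congr rfl fun l _ => ?_
    have hmin : min (l : ℕ) n = l := min_eq_left l.2.le
    simp only [List.map_cons, List.prod_cons, List.map_nil, List.prod_nil, hl, hmin]
    push_cast
    ring
  constructor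
  · intro hq
    refine ⟨hl, fun t ht j => ?_⟩
    induction j with
    | zero =>
      intro _
      have h3 := hq _ ⟨t, ht, Or.inl rfl⟩
      rw [val_eqW, wv_cons, wv_one, ← hν, sL_prod h1 h2] at h3
      simp at h3
      rw [pow_zero]
      linarith
    | succ j ih =>
      intro hj
      have h3 := hq _ ⟨t, ht, Or.inr ⟨j, by omega, rfl⟩⟩
      rw [val_eqW, wv_cons, ← hν, hsum, List.map_cons, List.prod_cons, sL_prod h1 h2,
        ih (by omega)] at h3
      have h4 : s * (ν (nu n cu t (j + 1)) - s * uu t v ^ (j + 1)) = 0 := by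
        rw [pow_one] at h3
        push_cast at h3
        rw [← h3]
        ring
      rcases mul_eq_zero.1 h4 with h5 | h5
      · exact absurd h5 hs.ne'
      · linarith
  · rintro ⟨_, hu⟩ φ ⟨t, ht, rfl | ⟨j, hj, rfl⟩⟩
    · rw [val_eqW, wv_cons, wv_one, ← hν, sL_prod h1 h2]
      have := hu t ht 0 (by omega)
      simp only [List.map_cons, List.prod_cons, List.map_nil, List.prod_nil, this]
      push_cast
      ring
    · rw [val_eqW, wv_cons, ← hν, hsum, List.map_cons, List.prod_cons, sL_prod h1 h2,
        hu t ht (j + 1) (by omega), hu t ht j (by omega)]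
      push_cast
      ring

end Pool.Agent.Q47.IP
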