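import Pool.Agent.Q47.IP.NMS

set_option autoImplicit false

/-!
# Project IP: positions of the parameters
-/

namespace Pool.Agent.Q47.IP

open Pool.Agent.Q230.IP

theorem mul_add_inj {b x y x' y' : ℕ} (hy : y < b) (hy' : y' < b) (h : x * b + y = x' * b + y') :
    x = x' ∧ y = y' := by
  have h1 : (x * b + y) % b = y := by
    rw [Nat.mul_comm, Nat.mul_add_mod, Nat.mod_eq_of_lt hy]
  have h2 : (x' * b + y') % b = y' := by
    rw [Nat.mul_comm, Nat.mul_add_mod, Nat.mod_eq_of_lt hy']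
  have h3 : y = y' := by rw [← h1, ← h2, h]
  subst h3
  have h4 : x * b = x' * b := by omega
  exact ⟨Nat.eq_of_mul_eq_mul_right (by omega) h4, rfl⟩

theorem pos_lt (n T : ℕ) (i : Par n T) : pos n T i < LL n T := by
  unfold LL
  rcases i with i | l | ⟨t, j⟩ | ⟨t, l, j⟩
  · simp only [pos]; omega
  · simp only [pos]; omega
  · simp only [pos]
    have := (split_mul T (2 * n + 2) _).2 ⟨t, t.2, j, j.2, rfl⟩
    omega
  · simp only [pos]
    have h1 := (split_mul T n _).2 ⟨t, t.2, l, l.2, rfl⟩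
    have h2 := (split_mul (T * n) (n + 1) _).2 ⟨_, h1, j, j.2, rfl⟩
    have h3 : T * n * (n + 1) = T * (n * (n + 1)) := by ring
    omega

theorem pos_inj (n T : ℕ) : Function.Injective (pos n T) := by
  intro i i' h
  have b1 : ∀ (t : Fin T) (j : Fin (2 * n + 2)), (t : ℕ) * (2 * n + 2) + j < T * (2 * n + 2) :=
    fun t j => (split_mul T (2 * n + 2) _).2 ⟨t, t.2, j, j.2, rfl⟩
  rcases i with i | l | ⟨t, j⟩ | ⟨t, l, j⟩ <;> rcases i' with i' | l' | ⟨t', j'⟩ | ⟨t', l', j'⟩ <;>
    simp only [pos] at h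
  · exact congrArg Sum.inl (Fin.ext h)
  · have := i.2; omega
  · have := i.2; omega
  · have := i.2; omega
  · have := i'.2; omega
  · have : l = l' := Fin.ext (by omega)
    rw [this]
  · have := l.2; omega
  · have := l.2; omega
  · have := i'.2; omega
  · have := l'.2; omega
  · obtain ⟨h1, h2⟩ := mul_add_inj j.2 j'.2 (x := (t : ℕ)) (x' := (t' : ℕ)) (by omega)
    rw [Fin.ext h1, Fin.ext h2]
  · have := b1 t j; omega
  · have := i'.2; omega
  · have := l'.2; omega
  · have := b1 t' j'; omega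
  · obtain ⟨h1, h2⟩ := mul_add_inj j.2 j'.2 (x := (t : ℕ) * n + l) (x' := (t' : ℕ) * n + l') (by omega)
    obtain ⟨h3, h4⟩ := mul_add_inj l.2 l'.2 h1
    rw [Fin.ext h2, Fin.ext h3, Fin.ext h4]

theorem pos' : S_pos := by
  intro n T
  refine ⟨pos_inj n T, pos_lt n T, ?_⟩
  unfold Par PI LL
  simp only [Fintype.card_sum, Fintype.card_prod, Fintype.card_fin]

/-- every number below `LL` is a position -/
theorem exists_pos {n T j : ℕ} (hj : j < LL n T) : ∃ i : Par n T, pos n T i = j := by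
  obtain ⟨h1, h2, h3⟩ := pos' n T
  let f : Par n T → Fin (LL n T) := fun i => ⟨pos n T i, h2 i⟩
  have hf : Function.Bijective f := by
    rw [Fintype.bijective_iff_injective_and_card]
    refine ⟨fun a b hab => h1 (by simpa [f] using hab), by rw [h3, Fintype.card_fin]⟩
  obtain ⟨i, hi⟩ := hf.2 ⟨j, hj⟩
  exact ⟨i, by simpa [f] using hi⟩

end Pool.Agent.Q47.IP
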